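import Pool.Agent.Helper30.Tri7

namespace Pool.Agent.Helper30.TriFace

open Set

variable {n : ℕ}

theorem not_zero_of_mem (D : ConvexDrawing n) {x : ℝ × ℝ}
    (hx : x ∈ convexHull ℝ (range D.pt) \ edges D) {i j : Fin n} (hij : i ≠ j) :
    det3 (D.pt i) (D.pt j) x ≠ 0 := by
  intro h
  exact hx.2 ⟨i, j, hij, hull_line D.convexPosition hij hx.1 h⟩

theorem seg_det {a b x : ℝ × ℝ} (hx : x ∈ segment ℝ a b) : det3 a b x = 0 := by
  obtain ⟨s, t, hs, ht, hst, rfl⟩ := hx
  rw [det3_comb _ _ _ _ hst, det3_left, det3_right]; ring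

/-- The sign of the position relative to a chord is constant on preconnected sets avoiding the
edges. -/
theorem sign_const (D : ConvexDrawing n) {S : Set (ℝ × ℝ)} (hS : IsPreconnected S)
    (hSW : S ⊆ convexHull ℝ (range D.pt) \ edges D) {i j : Fin n} (hij : i ≠ j) {x y : ℝ × ℝ}
    (hx : x ∈ S) (hy : y ∈ S) (h : 0 < det3 (D.pt i) (D.pt j) x) :
    0 < det3 (D.pt i) (D.pt j) y := by
  by_contra hc
  obtain ⟨z, hz, hz0⟩ := hS.intermediate_value hy hx (det3_continuous (D.pt i) (D.pt j)).continuousOn
    ⟨not_lt.1 hc, h.le⟩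
  exact not_zero_of_mem D (hSW hz) hij hz0

theorem comb_pos {s t a b : ℝ} (hs : 0 ≤ s) (ht : 0 ≤ t) (hst : s + t = 1) (ha : 0 < a)
    (hb : 0 < b) : 0 < s * a + t * b := by
  rcases eq_or_lt_of_le hs with h | h
  · subst h
    have : t = 1 := by linarith
    subst this
    linarith
  · have := mul_pos h ha
    have := mul_nonneg ht hb.le
    linarith

theorem isFace_finite (D : ConvexDrawing n) : {F | IsFace D F}.Finite := by
  classical
  let g : Set (ℝ × ℝ) → (Fin n × Fin n → SignType) := fun F =>
    if h : F.Nonempty then fun e => SignType.sign (det3 (D.pt e.1) (D.pt e.2) h.some) else 0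
  apply Set.Finite.of_injOn (f := g) (t := univ) (fun _ _ => mem_univ _) _ finite_univ
  rintro F hF F' hF' hg
  have hne : F.Nonempty := by
    obtain ⟨x, hx, rfl⟩ := hF
    exact ⟨x, mem_connectedComponentIn hx⟩
  have hne' : F'.Nonempty := by
    obtain ⟨x, hx, rfl⟩ := hF'
    exact ⟨x, mem_connectedComponentIn hx⟩
  simp only [g, dif_pos hne, dif_pos hne'] at hg
  set x := hne.some
  set y := hne'.some
  have hxF : x ∈ F := hne.some_mem
  have hyF : y ∈ F' := hne'.some_mem
  obtain ⟨a, ha, rfl⟩ := hF
  obtain ⟨b, hb, rfl⟩ := hF'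
  have hxW := connectedComponentIn_subset _ _ hxF
  have hyW := connectedComponentIn_subset _ _ hyF
  have hseg : segment ℝ x y ⊆ convexHull ℝ (range D.pt) \ edges D := by
    intro z hz
    refine ⟨(convex_convexHull ℝ _).segment_subset hxW.1 hyW.1 hz, ?_⟩
    rintro ⟨i, j, hij, hzs⟩
    have h0 := seg_det hzs
    obtain ⟨s, t, hs, ht, hst, rfl⟩ := hz
    rw [det3_comb _ _ _ _ hst] at h0
    have hs1 := congrFun hg (i, j)
    simp only at hs1
    have hx0 := not_zero_of_mem D hxW hij
    have hy0 := not_zero_of_mem D hyW hij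
    rcases lt_or_gt_of_ne hx0 with h | h
    · rw [sign_neg h] at hs1
      have hy1 : det3 (D.pt i) (D.pt j) y < 0 := sign_eq_neg_one_iff.1 hs1.symm
      have := comb_pos hs ht hst (neg_pos.2 h) (neg_pos.2 hy1)
      linarith
    · rw [sign_pos h] at hs1
      have hy1 : 0 < det3 (D.pt i) (D.pt j) y := sign_eq_one_iff.1 hs1.symm
      have := comb_pos hs ht hst h hy1
      linarith
  have hy' : y ∈ connectedComponentIn (convexHull ℝ (range D.pt) \ edges D) x :=
    (convex_segment x y).isPreconnected.subset_connectedComponentIn (left_mem_segment ℝ x y) hseg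
      (right_mem_segment ℝ x y)
  rw [connectedComponentIn_eq hxF, connectedComponentIn_eq hyF, connectedComponentIn_eq hy']

theorem threeFaces_finite (D : ConvexDrawing n) : {F | IsThreeFace D F}.Finite :=
  (isFace_finite D).subset fun _ h => h.1

section count

theorem Tr_face (hn0 : 0 < n) (hn : 4 ≤ n) (D : ConvexDrawing n) (hC : Ccw D.pt) {v k : ℕ}
    (hv : v < n) (hk : 1 ≤ k) (hkn : k + 1 < n) :
    IsThreeFace D (Tr n (sh hn0 D.pt v) k) ∧
      D.pt ⟨v, hv⟩ ∈ closure (Tr n (sh hn0 D.pt v) k) := by
  set w := sh hn0 D.pt v with hw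
  have C : ∀ i j k, i < j → j < k → k < n → 0 < det3 (w i) (w j) (w k) :=
    fun i j k hij hjk hk => sh_ccw hn0 hC hv hij hjk hk
  have hwr : ∀ i, w i ∈ range D.pt := fun i => mem_range_self _
  have hne : ∀ {i j : ℕ}, i < n → j < n → i ≠ j →
      (⟨(v + i) % n, Nat.mod_lt _ hn0⟩ : Fin n) ≠ ⟨(v + j) % n, Nat.mod_lt _ hn0⟩ := by
    intro i j hi hj hij h
    have h' := Fin.mk.inj_iff.1 h
    rw [mod_eq' hv hi, mod_eq' hv hj] at h'
    split_ifs at h' <;> omega
  obtain ⟨b, c, hb, hc, hd, hT⟩ := Tr_triangle C (by omega : 3 ≤ n) hk hkn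
  set H := convexHull ℝ (range D.pt) with hH
  have hwH : ∀ i, w i ∈ H := fun i => subset_convexHull ℝ _ (hwr i)
  have hbH : b ∈ H := (convex_convexHull ℝ _).segment_subset (hwH 0) (hwH k) hb
  have hcH : c ∈ H := (convex_convexHull ℝ _).segment_subset (hwH 0) (hwH (k + 1)) hc
  have hTH : Tr n w k ⊆ H := by
    rw [← hT]
    refine interior_subset.trans (convexHull_min ?_ (convex_convexHull ℝ _))
    rintro x (rfl | rfl | rfl)
    · exact hwH 0
    · exact hbH
    · exact hcH
  have hTE : ∀ x ∈ Tr n w k, x ∉ edges D := by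
    rintro x ⟨h1, h2, h3⟩ ⟨a, a', haa, hx⟩
    obtain ⟨i, hi, rfl⟩ := sh_surj hn0 D.pt hv a
    obtain ⟨j, hj, rfl⟩ := sh_surj hn0 D.pt hv a'
    change x ∈ segment ℝ (w i) (w j) at hx
    have hij : i ≠ j := by
      rintro rfl
      exact haa rfl
    -- reduce to the chord at `w 0`
    have key : ∀ {i j : ℕ}, i < n → j < n → i ≠ j → x ∈ segment ℝ (w i) (w j) → i ≠ 0 → False := by
      intro i j hi hj hij hx hi0
      have ear_le : ∀ m, m < n → m ≠ 0 → det3 (w 1) (w (n - 1)) (w m) ≤ 0 := by
        intro m hm hm0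
        rcases Nat.lt_or_ge 1 m with h | h
        · rcases Nat.lt_or_ge m (n - 1) with h' | h'
          · rw [det3_swap]
            have := C 1 m (n - 1) h h' (by omega)
            linarith
          · have : m = n - 1 := by omega
            rw [this, det3_right]
        · have : m = 1 := by omega
          rw [this, det3_left]
      obtain ⟨s, t, hs, ht, hst, rfl⟩ := hx
      by_cases hj0 : j = 0
      · subst hj0
        rw [det3_comb _ _ _ _ hst, det3_left] at h2 h3
        rcases Nat.lt_or_ge k i with h | h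
        · -- i ≥ k + 1
          rcases Nat.lt_or_ge (k + 1) i with h' | h'
          · have := C 0 (k + 1) i (by omega) h' hi
            have : 0 ≤ s * det3 (w 0) (w (k + 1)) (w i) := by positivity
            linarith
          · have : i = k + 1 := by omega
            rw [this, det3_right] at h2
            linarith
        · rcases Nat.lt_or_ge i k with h' | h'
          · have := C 0 i k (by omega) h' (by omega)
            rw [det3_swap (w 0) (w k) (w i)] at h3
            have : 0 ≤ s * det3 (w 0) (w i) (w k) := by positivity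
            linarith
          · have : i = k := by omega
            rw [this, det3_right] at h3
            linarith
      · rw [det3_comb _ _ _ _ hst] at h1
        have e1 := ear_le i hi hi0
        have e2 := ear_le j hj hj0
        have := mul_nonneg hs (neg_nonneg.2 e1)
        have := mul_nonneg ht (neg_nonneg.2 e2)
        linarith
    by_cases hi0 : i = 0
    · exact key hj hi (Ne.symm hij) (by rw [segment_symm]; exact hx) (by omega)
    · exact key hi hj hij hx hi0
  have hTW : Tr n w k ⊆ H \ edges D := fun x hx => ⟨hTH hx, hTE x hx⟩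
  have hconv : Convex ℝ (Tr n w k) := by
    rw [← hT]
    exact (convex_convexHull ℝ _).interior
  have hTne : (Tr n w k).Nonempty := by
    rw [← hT, interior_convexHull_nonempty_iff_affineSpan_eq_top]
    have hind := affInd_of_det hd
    have : affineSpan ℝ (range ![w 0, b, c]) = ⊤ := by
      rw [hind.affineSpan_eq_top_iff_card_eq_finrank_add_one]
      simp
    rwa [range_vec] at this
  obtain ⟨x, hx⟩ := hTne
  have hcomp : Tr n w k = connectedComponentIn (H \ edges D) x := by
    apply Subset.antisymm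
    · exact hconv.isPreconnected.subset_connectedComponentIn hx hTW
    · intro y hy
      have hpre : IsPreconnected (connectedComponentIn (H \ edges D) x) :=
        isPreconnected_connectedComponentIn
      have hsub : connectedComponentIn (H \ edges D) x ⊆ H \ edges D :=
        connectedComponentIn_subset _ _
      have hxC : x ∈ connectedComponentIn (H \ edges D) x := mem_connectedComponentIn (hTW hx)
      refine ⟨?_, ?_, ?_⟩
      · exact sign_const D hpre hsub (hne (by omega) (by omega) (by omega : 1 ≠ n - 1)) hxC hy hx.1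
      · have h1 : 0 < det3 (w (k + 1)) (w 0) x := by
          have := hx.2.1
          have e : det3 (w (k + 1)) (w 0) x = - det3 (w 0) (w (k + 1)) x := by unfold det3; ring
          rw [e]; linarith
        have h2 : 0 < det3 (w (k + 1)) (w 0) y :=
          sign_const D hpre hsub (hne (by omega) (by omega) (by omega : k + 1 ≠ 0)) hxC hy h1
        have e : det3 (w (k + 1)) (w 0) y = - det3 (w 0) (w (k + 1)) y := by unfold det3; ring
        rw [e] at h2; linarith
      · exact sign_const D hpre hsub (hne (by omega) (by omega) (by omega : 0 ≠ k)) hxC hy hx.2.2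
  refine ⟨⟨⟨x, hTW hx, hcomp⟩, w 0, b, c, affInd_of_det hd, hT.symm⟩, ?_⟩
  have hw0 : D.pt ⟨v, hv⟩ = w 0 := by
    rw [hw]
    unfold sh
    congr 1
    ext
    simp [Nat.mod_eq_of_lt hv]
  rw [hw0, ← hT, (convex_convexHull ℝ _).closure_interior_eq_closure_of_nonempty_interior
    (by rw [hT]; exact ⟨x, hx⟩)]
  exact subset_closure (subset_convexHull ℝ _ (by simp))

theorem lower_ccw (hn : 4 ≤ n) (D : ConvexDrawing n) (hC : Ccw D.pt) :
    n * (n - 3) ≤ numThreeFaces D := by
  have hn0 : 0 < n := by omega
  have hcard : n * (n - 3) = (↑(Finset.range n ×ˢ Finset.range (n - 3)) : Set (ℕ × ℕ)).ncard := by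
    rw [Set.ncard_coe_finset, Finset.card_product, Finset.card_range, Finset.card_range]
  rw [hcard]
  unfold numThreeFaces
  refine Set.ncard_le_ncard_of_injOn (fun q : ℕ × ℕ => Tr n (sh hn0 D.pt q.1) (q.2 + 1)) ?_ ?_
    (threeFaces_finite D)
  · rintro ⟨v, k⟩ hq
    simp only [Finset.coe_product, Finset.coe_range, mem_prod, mem_Iio] at hq
    exact (Tr_face hn0 hn D hC hq.1 (by omega) (by omega)).1
  · rintro ⟨v, k⟩ hq ⟨v', k'⟩ hq' h
    simp only [Finset.coe_product, Finset.coe_range, mem_prod, mem_Iio] at hq hq' h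
    obtain ⟨hv, hk⟩ := hq
    obtain ⟨hv', hk'⟩ := hq'
    have C : ∀ v < n, ∀ i j k, i < j → j < k → k < n →
        0 < det3 (sh hn0 D.pt v i) (sh hn0 D.pt v j) (sh hn0 D.pt v k) :=
      fun v hv i j k hij hjk hk => sh_ccw hn0 hC hv hij hjk hk
    have F1 := Tr_face hn0 hn D hC hv (by omega : 1 ≤ k + 1) (by omega)
    have F2 := Tr_face hn0 hn D hC hv' (by omega : 1 ≤ k' + 1) (by omega)
    by_cases hvv : v = v'
    · subst hvv
      obtain ⟨x, hx⟩ : (Tr n (sh hn0 D.pt v) (k + 1)).Nonempty := by
        obtain ⟨y, hy, e⟩ := F1.1.1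
        rw [e]
        exact ⟨y, mem_connectedComponentIn hy⟩
      rcases lt_trichotomy k k' with hlt | heq | hgt
      · exact absurd (h ▸ hx) (Tr_disj (C v hv) (by omega) (by omega : k + 1 < k' + 1) (by omega) hx)
      · rw [heq]
      · exact absurd hx (Tr_disj (C v hv) (by omega) (by omega : k' + 1 < k + 1) (by omega) (h ▸ hx))
    · exfalso
      have next : ∀ {v v' k : ℕ} (hv : v < n) (hv' : v' < n), v ≠ v' → k + 3 < n →
          D.pt ⟨v', hv'⟩ ∈ closure (Tr n (sh hn0 D.pt v) (k + 1)) → (v + 1) % n = v' := by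
        intro v v' k hv hv' hne hk hcl
        obtain ⟨j, hj, hjv⟩ := sh_surj hn0 D.pt hv ⟨v', hv'⟩
        have hj' := Fin.mk.inj_iff.1 hjv
        have hj0 : 1 ≤ j := by
          by_contra hc
          have : j = 0 := by omega
          subst this
          rw [Nat.add_zero, Nat.mod_eq_of_lt hv] at hj'
          exact hne hj'
        rw [← hjv] at hcl
        have := Tr_vertex (C v hv) (by omega : 1 ≤ k + 1) (by omega) hj0 hj hcl
        subst this
        exact hj'
      have e1 := next hv hv' hvv (by omega) (h ▸ F2.2)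
      have e2 := next hv' hv (Ne.symm hvv) (by omega) (h ▸ F1.2)
      rw [mod_eq' hv (by omega)] at e1
      rw [mod_eq' hv' (by omega)] at e2
      split_ifs at e1 e2 <;> omega

theorem lower (hn : 4 ≤ n) (D : ConvexDrawing n) : n * (n - 3) ≤ numThreeFaces D := by
  obtain ⟨σ, hσ⟩ := exists_ccw (by omega : 0 < n) D.convexPosition
  obtain ⟨D', hD', hnum⟩ := num_relabel D σ
  rw [← hnum]
  exact lower_ccw hn D' (by rw [hD']; exact hσ)

end count

end Pool.Agent.Helper30.TriFace
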