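import Mathlib

/-!
Convex drawings of complete graphs and their triangular faces.
-/

namespace Pool.Agent.Helper30.TriFace

open Set

/-- A convex drawing of `K_n`: `n` points of the plane in strictly convex position (no point lies in
the convex hull of others); the edges are drawn as straight segments. -/
structure ConvexDrawing (n : ℕ) where
  /-- The positions of the vertices. -/
  pt : Fin n → ℝ × ℝ
  /-- The vertices are in strictly convex position. -/
  convexPosition : ConvexIndependent ℝ pt

/-- The union of all the drawn edges. -/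
def edges {n : ℕ} (D : ConvexDrawing n) : Set (ℝ × ℝ) :=
  {x | ∃ i j : Fin n, i ≠ j ∧ x ∈ segment ℝ (D.pt i) (D.pt j)}

/-- A face (bounded cell): a connected component of the convex hull of the vertices minus the
drawn edges. -/
def IsFace {n : ℕ} (D : ConvexDrawing n) (F : Set (ℝ × ℝ)) : Prop :=
  ∃ x ∈ convexHull ℝ (range D.pt) \ edges D,
    F = connectedComponentIn (convexHull ℝ (range D.pt) \ edges D) x

/-- A `3`-face: a face which is the interior of a (nondegenerate) triangle. -/
def IsThreeFace {n : ℕ} (D : ConvexDrawing n) (F : Set (ℝ × ℝ)) : Prop :=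
  IsFace D F ∧ ∃ a b c : ℝ × ℝ, AffineIndependent ℝ ![a, b, c] ∧
    F = interior (convexHull ℝ {a, b, c})

/-- The number `t(D)` of `3`-faces of a drawing. -/
noncomputable def numThreeFaces {n : ℕ} (D : ConvexDrawing n) : ℕ := {F | IsThreeFace D F}.ncard

/-- A drawing is generic if no three edges pass through a common point other than a vertex. -/
def IsGeneric {n : ℕ} (D : ConvexDrawing n) : Prop :=
  ∀ x, x ∉ range D.pt →
    {e : Fin n × Fin n | e.1 < e.2 ∧ x ∈ segment ℝ (D.pt e.1) (D.pt e.2)}.ncard ≤ 2

/-- `t(n)`: the minimum number of `3`-faces in a convex drawing of `K_n`. -/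
noncomputable def t (n : ℕ) : ℕ := sInf {k | ∃ D : ConvexDrawing n, numThreeFaces D = k}

/-- `t_gen(n)`: the minimum number of `3`-faces in a generic convex drawing of `K_n`. -/
noncomputable def tgen (n : ℕ) : ℕ :=
  sInf {k | ∃ D : ConvexDrawing n, IsGeneric D ∧ numThreeFaces D = k}

end Pool.Agent.Helper30.TriFace
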