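import Pool.Agent.Helper30.Tri3
import Pool.Agent.Helper30.TriDefs

namespace Pool.Agent.Helper30.TriFace

open Set

theorem convexIndependent_P (n : ℕ) : ConvexIndependent ℝ (fun i : Fin n => P i) := by
  intro s x hx
  by_contra hxs
  have hsub : convexHull ℝ ((fun i : Fin n => P i) '' s) ⊆
      {q : ℝ × ℝ | 0 < q.2 - 2 * X x * q.1 + X x ^ 2} := by
    apply convexHull_min
    · rintro _ ⟨k, hk, rfl⟩
      simp only [P, mem_ofPred_eq]
      have hne : X k - X x ≠ 0 := by
        intro h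
        apply hxs
        have : (k : ℕ) = x := X_inj.1 (by linarith)
        rwa [← Fin.ext this]
      have : 0 < (X k - X x) ^ 2 := by positivity
      nlinarith
    · intro p hp q hq a b ha hb hab
      simp only [mem_ofPred_eq, Prod.fst_add, Prod.smul_fst, Prod.snd_add, Prod.smul_snd,
        smul_eq_mul] at *
      have hb' : b = 1 - a := by linarith
      subst hb'
      rcases eq_or_lt_of_le ha with h | h
      · subst h
        linarith
      · nlinarith [mul_pos h hp, mul_nonneg hb hq.le]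
  have := hsub hx
  simp only [P, mem_ofPred_eq] at this
  nlinarith

/-- The drawing. -/
noncomputable def D0 (n : ℕ) : ConvexDrawing n := ⟨fun i => P i, convexIndependent_P n⟩

theorem hull_above (n : ℕ) : convexHull ℝ (range (D0 n).pt) ⊆ Above := by
  apply convexHull_min
  · rintro _ ⟨k, rfl⟩
    exact P_mem_above _
  · exact above_convex

theorem three_chords {x : ℝ × ℝ} (hA : x ∈ Above) (hP : ∀ k, x ≠ P k) {a1 b1 a2 b2 a3 b3 : ℕ}
    (l1 : a1 < b1) (l2 : a2 < b2) (l3 : a3 < b3) (h1 : L a1 b1 x = 0) (h2 : L a2 b2 x = 0)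
    (h3 : L a3 b3 x = 0) (e12 : ¬ (a1 = a2 ∧ b1 = b2)) (e13 : ¬ (a1 = a3 ∧ b1 = b3))
    (e23 : ¬ (a2 = a3 ∧ b2 = b3)) : False := by
  have i12 := interleave l1 l2 h1 h2 hA (hP _) (hP _) (hP _) (hP _) e12
  have i13 := interleave l1 l3 h1 h3 hA (hP _) (hP _) (hP _) (hP _) e13
  have i23 := interleave l2 l3 h2 h3 hA (hP _) (hP _) (hP _) (hP _) e23
  have fin : ∀ {a b c d e f : ℕ}, a < b → b < c → c < d → d < e → e < f →
      L a d x = 0 → L b e x = 0 → L c f x = 0 → False := by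
    intro a b c d e f hab hbc hcd hde hef k1 k2 k3
    have := orient_ad hab hbc hcd hde hef k2 k3
    linarith
  rcases i12 with ⟨p1, p2, p3⟩ | ⟨p1, p2, p3⟩ <;> rcases i13 with ⟨q1, q2, q3⟩ | ⟨q1, q2, q3⟩ <;>
    rcases i23 with ⟨r1, r2, r3⟩ | ⟨r1, r2, r3⟩
  · exact fin p1 r1 q2 p3 r3 h1 h2 h3
  · exact fin q1 r1 p2 q3 r3 h1 h3 h2
  · omega
  · exact fin q1 p1 r2 q3 p3 h3 h1 h2
  · exact fin p1 q1 r2 p3 q3 h2 h1 h3
  · omega
  · exact fin r1 q1 p2 r3 q3 h2 h3 h1
  · exact fin r1 p1 q2 r3 p3 h3 h2 h1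

theorem generic_D0 (n : ℕ) : IsGeneric (D0 n) := by
  intro x hx
  by_contra hc
  push Not at hc
  obtain ⟨e1, e2, e3, ⟨l1, h1⟩, ⟨l2, h2⟩, ⟨l3, h3⟩, n12, n13, n23⟩ :=
    (Set.two_lt_ncard_iff (Set.toFinite _)).1 hc
  have g1 := (seg_iff (by simpa using (Fin.val_fin_lt.2 l1).ne) x).1 h1
  have g2 := (seg_iff (by simpa using (Fin.val_fin_lt.2 l2).ne) x).1 h2
  have g3 := (seg_iff (by simpa using (Fin.val_fin_lt.2 l3).ne) x).1 h3
  have hP : ∀ k, x ≠ P k := by
    rintro k rfl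
    have : k < n := by
      have := g1.1
      rw [L_P] at this
      rcases mul_eq_zero.1 this with h | h
      · rw [X_inj.1 (by linarith : X k = X (e1.1 : ℕ))]; exact e1.1.2
      · rw [X_inj.1 (by linarith : X k = X (e1.2 : ℕ))]; exact e1.2.2
    exact hx ⟨⟨k, this⟩, rfl⟩
  have ne : ∀ {e f : Fin n × Fin n}, e ≠ f → ¬ ((e.1 : ℕ) = f.1 ∧ (e.2 : ℕ) = f.2) := by
    rintro e f hef ⟨h, h'⟩
    exact hef (Prod.ext (Fin.ext h) (Fin.ext h'))
  exact three_chords g1.2 hP (Fin.val_fin_lt.2 l1) (Fin.val_fin_lt.2 l2) (Fin.val_fin_lt.2 l3)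
    g1.1 g2.1 g3.1 (ne n12) (ne n13) (ne n23)

section faces

variable {n : ℕ} {F : Set (ℝ × ℝ)}

/-- Boundary points of a face lie on the edges. -/
theorem face_boundary {D : ConvexDrawing n} (hF : IsFace D F) {p : ℝ × ℝ} (hp : p ∈ closure F)
    (hpF : p ∉ F) : p ∈ edges D := by
  obtain ⟨x, hx, rfl⟩ := hF
  set W := convexHull ℝ (range D.pt) \ edges D with hW
  by_contra hpe
  have hcl : IsClosed (convexHull ℝ (range D.pt)) :=
    (Set.Finite.isCompact_convexHull ℝ (Set.finite_range D.pt)).isClosed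
  have hpH : p ∈ convexHull ℝ (range D.pt) := by
    have : closure (connectedComponentIn W x) ⊆ convexHull ℝ (range D.pt) :=
      closure_minimal ((connectedComponentIn_subset W x).trans sdiff_subset) hcl
    exact this hp
  have hpre : IsPreconnected (insert p (connectedComponentIn W x)) :=
    isPreconnected_connectedComponentIn.subset_closure (subset_insert _ _)
      (insert_subset hp subset_closure)
  have hsub : insert p (connectedComponentIn W x) ⊆ W :=
    insert_subset ⟨hpH, hpe⟩ (connectedComponentIn_subset W x)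
  have := hpre.subset_connectedComponentIn (mem_insert_of_mem _ (mem_connectedComponentIn hx)) hsub
  exact hpF (this (mem_insert _ _))

theorem side_chord {a b : ℝ × ℝ} (h : ∀ t ∈ Icc (0 : ℝ) 1, ∃ i j : Fin n, i ≠ j ∧
    L i j ((1 - t) • a + t • b) = 0) : ∃ i j : ℕ, i < j ∧ j < n ∧ L i j a = 0 ∧ L i j b = 0 := by
  by_contra hc
  push Not at hc
  have key : ∀ i j : Fin n, i ≠ j → ¬ (L i j a = 0 ∧ L i j b = 0) := by
    rintro i j hij ⟨h1, h2⟩
    rcases lt_or_gt_of_ne hij with hl | hl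
    · exact hc i j hl j.2 h1 h2
    · exact hc j i hl i.2 (by rw [L_comm]; exact h1) (by rw [L_comm]; exact h2)
  have hsub : Icc (0 : ℝ) 1 ⊆ ⋃ e : Fin n × Fin n,
      {t | e.1 ≠ e.2 ∧ L e.1 e.2 ((1 - t) • a + t • b) = 0} := by
    intro t ht
    obtain ⟨i, j, hij, h0⟩ := h t ht
    exact mem_iUnion.2 ⟨(i, j), hij, h0⟩
  refine (Set.Icc_infinite (zero_lt_one : (0 : ℝ) < 1)) (Set.Finite.subset
    (Set.finite_iUnion fun e => Set.Subsingleton.finite ?_) hsub)
  rintro s ⟨hne, hs⟩ t ⟨-, ht⟩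
  rw [L_comb _ _ _ _ (by ring)] at hs ht
  have hk := key e.1 e.2 hne
  by_contra hst
  apply hk
  have h1 : (s - t) * (L e.1 e.2 b - L e.1 e.2 a) = 0 := by linear_combination hs - ht
  rcases mul_eq_zero.1 h1 with h2 | h2
  · exact absurd (by linarith) hst
  · have h3 : L e.1 e.2 a = 0 := by
      have : L e.1 e.2 b = L e.1 e.2 a := by linarith
      rw [this] at hs
      linarith
    exact ⟨h3, by linarith⟩

theorem not_collinear_of {v : Fin 3 → ℝ × ℝ} (hv : AffineIndependent ℝ v) (i j : ℕ) :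
    ¬ (L i j (v 0) = 0 ∧ L i j (v 1) = 0 ∧ L i j (v 2) = 0) := by
  rintro ⟨h0, h1, h2⟩
  rw [affineIndependent_iff_not_collinear] at hv
  apply hv
  rw [collinear_iff_of_mem (p₀ := v 0) (mem_range_self 0)]
  refine ⟨(1, X i + X j), ?_⟩
  rintro _ ⟨k, rfl⟩
  refine ⟨(v k).1 - (v 0).1, ?_⟩
  have hk : L i j (v k) = 0 := by fin_cases k <;> assumption
  unfold L at hk h0
  ext
  · simp
  · simp only [vadd_eq_add, Prod.snd_add, Prod.smul_snd, smul_eq_mul]
    linarith

theorem side_not_interior {v : Fin 3 → ℝ × ℝ} (hv : AffineIndependent ℝ v) {i j k : Fin 3}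
    (hki : k ≠ i) (hkj : k ≠ j) (t : ℝ) :
    (1 - t) • v i + t • v j ∉ interior (convexHull ℝ (range v)) := by
  have htop : affineSpan ℝ (range v) = ⊤ := by
    rw [hv.affineSpan_eq_top_iff_card_eq_finrank_add_one]
    simp
  let b : AffineBasis (Fin 3) ℝ (ℝ × ℝ) := ⟨v, hv, htop⟩
  have hb : (b : Fin 3 → ℝ × ℝ) = v := rfl
  rw [← hb, b.interior_convexHull]
  intro h
  have hk := h k
  have e : (1 - t) • b i + t • b j = AffineMap.lineMap (b i) (b j) t := by
    rw [AffineMap.lineMap_apply_module]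
  rw [e, AffineMap.apply_lineMap, b.coord_apply_ne hki, b.coord_apply_ne hkj] at hk
  simp at hk

theorem range_three (a b c : ℝ × ℝ) : range ![a, b, c] = {a, b, c} := by
  ext x
  simp
  tauto

/-- From a `3`-face to chords. -/
theorem face_trg {D : ConvexDrawing n} (hD : D = D0 n) (hF : IsFace D F) {a b c : ℝ × ℝ}
    (hind : AffineIndependent ℝ ![a, b, c]) (hFt : F = interior (convexHull ℝ {a, b, c})) :
    ∃ a1 b1 a2 b2 a3 b3 : ℕ, Trg n a b c a1 b1 a2 b2 a3 b3 := by
  have hpre : IsPreconnected F := by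
    obtain ⟨x, hx, rfl⟩ := hF
    exact isPreconnected_connectedComponentIn
  have hne : F.Nonempty := by
    obtain ⟨x, hx, rfl⟩ := hF
    exact ⟨x, mem_connectedComponentIn hx⟩
  have hFW : F ⊆ convexHull ℝ (range D.pt) \ edges D := by
    obtain ⟨x, hx, rfl⟩ := hF
    exact connectedComponentIn_subset _ _
  have hKcl : IsClosed (convexHull ℝ {a, b, c}) :=
    (Set.Finite.isCompact_convexHull ℝ (Set.toFinite {a, b, c})).isClosed
  have hclF : closure F = convexHull ℝ {a, b, c} := by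
    rw [hFt, (convex_convexHull ℝ _).closure_interior_eq_closure_of_nonempty_interior (hFt ▸ hne),
      hKcl.closure_eq]
  have hA : closure F ⊆ Above :=
    closure_minimal (hFW.trans (sdiff_subset.trans (hD ▸ hull_above n))) above_closed
  have hside : ∀ {i j k : Fin 3}, k ≠ i → k ≠ j → ∃ p q : ℕ, p < q ∧ q < n ∧
      L p q (![a, b, c] i) = 0 ∧ L p q (![a, b, c] j) = 0 := by
    intro i j k hki hkj
    apply side_chord (n := n)
    intro t ht
    have hcl : (1 - t) • ![a, b, c] i + t • ![a, b, c] j ∈ closure F := by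
      rw [hclF, ← range_three]
      exact convex_convexHull ℝ _ (subset_convexHull ℝ _ (mem_range_self _))
        (subset_convexHull ℝ _ (mem_range_self _)) (by linarith [ht.2]) ht.1 (by ring)
    have hnF : (1 - t) • ![a, b, c] i + t • ![a, b, c] j ∉ F := by
      rw [hFt, ← range_three]
      exact side_not_interior hind hki hkj t
    obtain ⟨i', j', hij, hseg⟩ := face_boundary hF hcl hnF
    subst hD
    exact ⟨i', j', hij, ((seg_iff (fun h => hij (Fin.ext h)) _).1 hseg).1⟩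
  obtain ⟨a1, b1, l1, m1, h12, h13⟩ := hside (i := 1) (j := 2) (k := 0) (by decide) (by decide)
  obtain ⟨a2, b2, l2, m2, h21, h23⟩ := hside (i := 0) (j := 2) (k := 1) (by decide) (by decide)
  obtain ⟨a3, b3, l3, m3, h31, h32⟩ := hside (i := 0) (j := 1) (k := 2) (by decide) (by decide)
  have hmem : ∀ u ∈ ({a, b, c} : Set (ℝ × ℝ)), u ∈ closure F := by
    intro u hu
    rw [hclF]
    exact subset_convexHull ℝ _ hu
  refine ⟨a1, b1, a2, b2, a3, b3, not_collinear_of hind, hA (hmem _ (by simp)),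
    hA (hmem _ (by simp)), hA (hmem _ (by simp)), ?_, l1, l2, l3, m1, m2, m3, h12, h13, h21, h23,
    h31, h32⟩
  rintro i j hi hj hij u hu w hw ⟨hneg, hpos⟩
  obtain ⟨u', hu'1, hu'F⟩ := mem_closure_iff.1 (hmem u hu) {q | L i j q < 0}
    (isOpen_lt (L_continuous i j) continuous_const) hneg
  obtain ⟨w', hw'1, hw'F⟩ := mem_closure_iff.1 (hmem w hw) {q | 0 < L i j q}
    (isOpen_lt continuous_const (L_continuous i j)) hpos
  obtain ⟨q, hqF, hq0⟩ := hpre.intermediate_value hu'F hw'F (L_continuous i j).continuousOn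
    ⟨le_of_lt hu'1, le_of_lt hw'1⟩
  apply (hFW hqF).2
  subst hD
  exact ⟨⟨i, hi⟩, ⟨j, hj⟩, fun h => hij (Fin.mk.inj_iff.1 h),
    (seg_iff hij q).2 ⟨hq0, hA (subset_closure hqF)⟩⟩

theorem card_B (n : ℕ) : ((Finset.range n ×ˢ Finset.range n).filter
    (fun q : ℕ × ℕ => 1 ≤ q.1 ∧ q.1 + 2 ≤ q.2 ∧ q.2 + 3 ≤ n)).card ≤ (n - 4).choose 2 := by
  have : (n - 4).choose 2 = ((Finset.range (n - 4)).powersetCard 2).card := by
    rw [Finset.card_powersetCard, Finset.card_range]
  rw [this]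
  apply Finset.card_le_card_of_injOn (fun q => {q.1 - 1, q.2 - 2})
  · intro q hq
    simp only [Finset.coe_filter, Finset.mem_product, Finset.mem_range, mem_ofPred_eq] at hq
    simp only [Finset.mem_coe, Finset.mem_powersetCard]
    constructor
    · intro y hy
      simp only [Finset.mem_insert, Finset.mem_singleton] at hy
      simp only [Finset.mem_range]
      omega
    · rw [Finset.card_pair (by omega)]
  · intro q hq q' hq' h
    simp only [Finset.coe_filter, Finset.mem_product, Finset.mem_range, mem_ofPred_eq] at hq hq'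
    have h : ({q.1 - 1, q.2 - 2} : Finset ℕ) = {q'.1 - 1, q'.2 - 2} := h
    have h1 : q.1 - 1 ∈ ({q'.1 - 1, q'.2 - 2} : Finset ℕ) := by
      rw [← h]; simp
    have h2 : q.2 - 2 ∈ ({q'.1 - 1, q'.2 - 2} : Finset ℕ) := by
      rw [← h]; simp
    have h3 : q'.1 - 1 ∈ ({q.1 - 1, q.2 - 2} : Finset ℕ) := by
      rw [h]; simp
    simp only [Finset.mem_insert, Finset.mem_singleton] at h1 h2 h3
    ext <;> omega

theorem threeFaces_D0 {n : ℕ} (hn : 4 ≤ n) : {F | IsThreeFace (D0 n) F} ⊆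
    (fun q : ℕ × ℕ => phi n q.1 q.2) '' ↑(Finset.range n ×ˢ Finset.range (n - 3)) ∪
    (fun q : ℕ × ℕ => G 0 q.2 q.1 (q.2 + 1) (q.1 + 1) (n - 1)) ''
      ↑((Finset.range n ×ˢ Finset.range n).filter
        (fun q : ℕ × ℕ => 1 ≤ q.1 ∧ q.1 + 2 ≤ q.2 ∧ q.2 + 3 ≤ n)) := by
  rintro F ⟨hF, a, b, c, hind, hFt⟩
  obtain ⟨a1, b1, a2, b2, a3, b3, T⟩ := face_trg rfl hF hind hFt
  rcases T.classify hn with ⟨u, k, hu, hk, h⟩ | ⟨i, j, hi, hj, hjn, h⟩
  · left
    exact ⟨(u, k), by simp; omega, by rw [hFt, h]⟩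
  · right
    exact ⟨(i, j), by simp; omega, by rw [hFt, h]⟩

theorem finite_threeFaces_D0 {n : ℕ} (hn : 4 ≤ n) : {F | IsThreeFace (D0 n) F}.Finite :=
  Set.Finite.subset (((Finset.finite_toSet _).image _).union ((Finset.finite_toSet _).image _))
    (threeFaces_D0 hn)

theorem num_D0 {n : ℕ} (hn : 4 ≤ n) : numThreeFaces (D0 n) ≤ n * (n - 3) + (n - 4).choose 2 := by
  unfold numThreeFaces
  refine (Set.ncard_le_ncard (threeFaces_D0 hn)
    (((Finset.finite_toSet _).image _).union ((Finset.finite_toSet _).image _))).trans ?_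
  refine (Set.ncard_union_le _ _).trans (add_le_add ?_ ?_)
  · refine (Set.ncard_image_le (Finset.finite_toSet _)).trans ?_
    rw [Set.ncard_coe_finset, Finset.card_product, Finset.card_range, Finset.card_range]
  · refine (Set.ncard_image_le (Finset.finite_toSet _)).trans ?_
    rw [Set.ncard_coe_finset]
    exact card_B n

end faces

end Pool.Agent.Helper30.TriFace
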