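import Mathlib

/-!
Convex drawings of complete graphs: coordinates on a rapidly growing set of points of a parabola.
-/

namespace Pool.Agent.Helper30.TriFace

open Set

/-- The abscissae. -/
noncomputable def X (k : ℕ) : ℝ := (4 : ℝ) ^ k

/-- The points of the drawing. -/
noncomputable def P (k : ℕ) : ℝ × ℝ := (X k, X k ^ 2)

/-- The line through `P i` and `P j` is the zero set of `L i j`. -/
noncomputable def L (i j : ℕ) (p : ℝ × ℝ) : ℝ := p.2 - (X i + X j) * p.1 + X i * X j

theorem X_pos (k : ℕ) : 0 < X k := by unfold X; positivity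

theorem X_lt {i j : ℕ} (h : i < j) : 4 * X i ≤ X j := by
  unfold X
  calc 4 * (4 : ℝ) ^ i = 4 ^ (i + 1) := by ring
    _ ≤ 4 ^ j := pow_le_pow_right₀ (by norm_num) h

theorem X_strictMono : StrictMono X := by
  intro i j h
  have := X_lt h
  have := X_pos i
  linarith

theorem X_lt_iff {i j : ℕ} : X i < X j ↔ i < j := X_strictMono.lt_iff_lt

theorem X_inj {i j : ℕ} : X i = X j ↔ i = j := X_strictMono.injective.eq_iff

theorem L_comm (i j : ℕ) (p : ℝ × ℝ) : L i j p = L j i p := by unfold L; ring

theorem L_P (i j k : ℕ) : L i j (P k) = (X k - X i) * (X k - X j) := by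
  unfold L P; ring

theorem L_continuous (i j : ℕ) : Continuous (L i j) := by
  unfold L; fun_prop

/-- The region above the parabola. -/
def Above : Set (ℝ × ℝ) := {p | p.1 ^ 2 ≤ p.2}

theorem above_convex : Convex ℝ Above := by
  intro p hp q hq a b ha hb hab
  simp only [Above, mem_ofPred_eq] at *
  simp only [Prod.fst_add, Prod.smul_fst, Prod.snd_add, Prod.smul_snd, smul_eq_mul]
  have hb' : b = 1 - a := by linarith
  subst hb'
  nlinarith [mul_nonneg (mul_nonneg ha hb) (sq_nonneg (p.1 - q.1)), mul_le_mul_of_nonneg_left hp ha,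
    mul_le_mul_of_nonneg_left hq hb]

theorem above_closed : IsClosed Above := by
  unfold Above
  exact isClosed_le (by fun_prop) (by fun_prop)

theorem P_mem_above (k : ℕ) : P k ∈ Above := by
  simp [Above, P]

theorem L_comb (i j : ℕ) (p q : ℝ × ℝ) {a b : ℝ} (hab : a + b = 1) :
    L i j (a • p + b • q) = a * L i j p + b * L i j q := by
  unfold L
  simp only [Prod.fst_add, Prod.smul_fst, Prod.snd_add, Prod.smul_snd, smul_eq_mul]
  have hb' : b = 1 - a := by linarith
  subst hb'
  ring

theorem seg_iff {i j : ℕ} (hij : i ≠ j) (p : ℝ × ℝ) :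
    p ∈ segment ℝ (P i) (P j) ↔ L i j p = 0 ∧ p ∈ Above := by
  constructor
  · rintro ⟨a, b, ha, hb, hab, rfl⟩
    refine ⟨?_, above_convex (P_mem_above i) (P_mem_above j) ha hb hab⟩
    rw [L_comb _ _ _ _ hab, L_P, L_P]; ring
  · rintro ⟨h0, hA⟩
    have hXne : X j - X i ≠ 0 := by
      intro h
      exact hij (X_inj.1 (by linarith))
    have hprod : (p.1 - X i) * (p.1 - X j) ≤ 0 := by
      simp only [Above, mem_ofPred_eq] at hA
      unfold L at h0
      nlinarith
    refine ⟨(X j - p.1) / (X j - X i), (p.1 - X i) / (X j - X i), ?_, ?_, ?_, ?_⟩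
    · rcases lt_or_gt_of_ne hXne with h | h
      · refine div_nonneg_of_nonpos ?_ h.le
        by_contra hc
        push Not at hc
        nlinarith
      · refine div_nonneg ?_ h.le
        by_contra hc
        push Not at hc
        nlinarith
    · rcases lt_or_gt_of_ne hXne with h | h
      · refine div_nonneg_of_nonpos ?_ h.le
        by_contra hc
        push Not at hc
        nlinarith
      · refine div_nonneg ?_ h.le
        by_contra hc
        push Not at hc
        nlinarith
    · field_simp
      ring
    · unfold L at h0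
      ext
      · simp only [P, Prod.fst_add, Prod.smul_fst, smul_eq_mul]
        field_simp
        ring
      · simp only [P, Prod.snd_add, Prod.smul_snd, smul_eq_mul]
        field_simp
        linear_combination (X i - X j) * h0

/-- Orientation: six numbers growing by factors at least four. -/
theorem orient {a b c d e f : ℝ} (ha : 0 < a) (hab : 4 * a ≤ b) (hbc : 4 * b ≤ c) (hcd : 4 * c ≤ d)
    (hde : 4 * d ≤ e) (hef : 4 * e ≤ f) :
    0 < c * f * ((b + e) - (a + d)) - b * e * ((c + f) - (a + d)) + a * d * ((c + f) - (b + e)) := by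
  have hb : 0 < b := by linarith
  have hc : 0 < c := by linarith
  have hd : 0 < d := by linarith
  have he : 0 < e := by linarith
  have hf : 0 < f := by linarith
  have h1 : c * f * (3 / 4 * e) ≤ c * f * ((b + e) - (a + d)) := by
    refine mul_le_mul_of_nonneg_left ?_ (by positivity)
    linarith
  have h2 : b * e * ((c + f) - (a + d)) ≤ b * e * (2 * f) := by
    refine mul_le_mul_of_nonneg_left ?_ (by positivity)
    linarith
  have h3 : b * e * (2 * f) ≤ (c / 4) * e * (2 * f) := by
    have : b ≤ c / 4 := by linarith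
    gcongr
  have h4 : 0 ≤ a * d * ((c + f) - (b + e)) := by
    refine mul_nonneg (by positivity) ?_
    linarith
  have h5 : 0 < c * e * f := by positivity
  nlinarith

/-- `A` on the lines `be`, `cf` lies above the line `ad`; with determinants. -/
theorem orient_idx {a b c d e f : ℕ} (hab : a < b) (hbc : b < c) (hcd : c < d) (hde : d < e)
    (hef : e < f) :
    0 < X c * X f * ((X b + X e) - (X a + X d)) - X b * X e * ((X c + X f) - (X a + X d))
      + X a * X d * ((X c + X f) - (X b + X e)) :=
  orient (X_pos a) (X_lt hab) (X_lt hbc) (X_lt hcd) (X_lt hde) (X_lt hef)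

theorem s23 {b c e f : ℕ} (hbc : b < c) (hef : e < f) : 0 < (X c + X f) - (X b + X e) := by
  have := X_lt_iff.2 hbc
  have := X_lt_iff.2 hef
  linarith

theorem orient_ad {a b c d e f : ℕ} (hab : a < b) (hbc : b < c) (hcd : c < d) (hde : d < e)
    (hef : e < f) {p : ℝ × ℝ} (h2 : L b e p = 0) (h3 : L c f p = 0) : 0 < L a d p := by
  have ho := orient_idx hab hbc hcd hde hef
  have hs := s23 hbc hef
  have key : L a d p * ((X c + X f) - (X b + X e)) =
      X c * X f * ((X b + X e) - (X a + X d)) - X b * X e * ((X c + X f) - (X a + X d))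
      + X a * X d * ((X c + X f) - (X b + X e)) := by
    unfold L at *
    linear_combination (X c + X f - X a - X d) * h2 - (X b + X e - X a - X d) * h3
  rw [← key] at ho
  exact pos_of_mul_pos_left ho hs.le |> fun h => h

theorem orient_be {a b c d e f : ℕ} (hab : a < b) (hbc : b < c) (hcd : c < d) (hde : d < e)
    (hef : e < f) {p : ℝ × ℝ} (h1 : L a d p = 0) (h3 : L c f p = 0) : L b e p < 0 := by
  have ho := orient_idx hab hbc hcd hde hef
  have hs : 0 < (X c + X f) - (X a + X d) := s23 (hab.trans hbc) (hde.trans hef)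
  have key : - L b e p * ((X c + X f) - (X a + X d)) =
      X c * X f * ((X b + X e) - (X a + X d)) - X b * X e * ((X c + X f) - (X a + X d))
      + X a * X d * ((X c + X f) - (X b + X e)) := by
    unfold L at *
    linear_combination - (X c + X f - X b - X e) * h1 - (X b + X e - X a - X d) * h3
  rw [← key] at ho
  have := pos_of_mul_pos_left ho hs.le
  linarith

theorem orient_cf {a b c d e f : ℕ} (hab : a < b) (hbc : b < c) (hcd : c < d) (hde : d < e)
    (hef : e < f) {p : ℝ × ℝ} (h1 : L a d p = 0) (h2 : L b e p = 0) : 0 < L c f p := by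
  have ho := orient_idx hab hbc hcd hde hef
  have hs : 0 < (X b + X e) - (X a + X d) := s23 hab hde
  have key : L c f p * ((X b + X e) - (X a + X d)) =
      X c * X f * ((X b + X e) - (X a + X d)) - X b * X e * ((X c + X f) - (X a + X d))
      + X a * X d * ((X c + X f) - (X b + X e)) := by
    unfold L at *
    linear_combination - (X c + X f - X b - X e) * h1 + (X c + X f - X a - X d) * h2
  rw [← key] at ho
  exact pos_of_mul_pos_left ho hs.le |> fun h => h

end Pool.Agent.Helper30.TriFace
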