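import Pool.Agent.Helper30.Tri1

namespace Pool.Agent.Helper30.TriFace

open Set

theorem L_sub (v w x : ℕ) (p : ℝ × ℝ) : L v x p - L v w p = (X w - X x) * (p.1 - X v) := by
  unfold L; ring

theorem eq_P_of_fst {a b : ℕ} {p : ℝ × ℝ} (h : L a b p = 0) (h1 : p.1 = X a) : p = P a := by
  unfold L at h
  ext
  · simpa [P] using h1
  · simp only [P]
    rw [h1] at h
    linarith

theorem between {a b : ℕ} (hab : a < b) {p : ℝ × ℝ} (h : L a b p = 0) (hA : p ∈ Above) :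
    X a ≤ p.1 ∧ p.1 ≤ X b := by
  have hprod : (p.1 - X a) * (p.1 - X b) ≤ 0 := by
    simp only [Above, mem_ofPred_eq] at hA
    unfold L at h
    nlinarith
  have := X_lt_iff.2 hab
  constructor
  · by_contra hc
    push Not at hc
    nlinarith
  · by_contra hc
    push Not at hc
    nlinarith

theorem sbetween {a b : ℕ} (hab : a < b) {p : ℝ × ℝ} (h : L a b p = 0) (hA : p ∈ Above)
    (ha : p ≠ P a) (hb : p ≠ P b) : X a < p.1 ∧ p.1 < X b := by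
  obtain ⟨h1, h2⟩ := between hab h hA
  refine ⟨lt_of_le_of_ne h1 ?_, lt_of_le_of_ne h2 ?_⟩
  · intro he
    exact ha (eq_P_of_fst h he.symm)
  · intro he
    rw [L_comm] at h
    exact hb (eq_P_of_fst h he)

theorem interleave {a b c d : ℕ} (hab : a < b) (hcd : c < d) {p : ℝ × ℝ} (h1 : L a b p = 0)
    (h2 : L c d p = 0) (hA : p ∈ Above) (ha : p ≠ P a) (hb : p ≠ P b) (hc : p ≠ P c)
    (hd : p ≠ P d) (hne : ¬ (a = c ∧ b = d)) : (a < c ∧ c < b ∧ b < d) ∨ (c < a ∧ a < d ∧ d < b) := by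
  obtain ⟨ha1, hb1⟩ := sbetween hab h1 hA ha hb
  obtain ⟨hc1, hd1⟩ := sbetween hcd h2 hA hc hd
  have hcb : c < b := X_lt_iff.1 (hc1.trans hb1)
  have had : a < d := X_lt_iff.1 (ha1.trans hd1)
  have key : (p.1 - X a) * (p.1 - X b) = (p.1 - X c) * (p.1 - X d) := by
    unfold L at h1 h2
    linear_combination h1 - h2
  rcases lt_trichotomy a c with h | h | h
  · left
    refine ⟨h, hcb, ?_⟩
    have := X_lt_iff.2 h
    rw [← X_lt_iff]
    by_contra hc'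
    push Not at hc'
    nlinarith
  · exfalso
    subst h
    have : (p.1 - X a) * (X d - X b) = 0 := by linear_combination key
    rcases mul_eq_zero.1 this with h | h
    · linarith
    · exact hne ⟨rfl, X_inj.1 (by linarith)⟩
  · right
    refine ⟨h, had, ?_⟩
    have := X_lt_iff.2 h
    rw [← X_lt_iff]
    by_contra hc'
    push Not at hc'
    nlinarith

theorem uniq {a b c d : ℕ} {u p w : ℝ × ℝ} (hu1 : L a b u = 0) (hu2 : L c d u = 0)
    (hp1 : L a b p = 0) (hp2 : L c d p = 0) (hw1 : L a b w = 0) (hw2 : L c d w ≠ 0) : p = u := by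
  by_cases hs : X a + X b = X c + X d
  · exfalso
    apply hw2
    unfold L at *
    have : X a * X b = X c * X d := by
      have h : (X a + X b) * u.1 = (X c + X d) * u.1 := by rw [hs]
      linarith
    have h : (X a + X b) * w.1 = (X c + X d) * w.1 := by rw [hs]
    linarith
  · have h1 : p.1 = u.1 := by
      have : ((X a + X b) - (X c + X d)) * (p.1 - u.1) = 0 := by
        unfold L at *
        linear_combination hu1 - hu2 - hp1 + hp2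
      rcases mul_eq_zero.1 this with h | h
      · exact absurd (by linarith) hs
      · linarith
    ext
    · exact h1
    · unfold L at *
      rw [h1] at hp1
      linarith

/-- The set of pairwise meeting points of three lines. -/
def Corners (a1 b1 a2 b2 a3 b3 : ℕ) : Set (ℝ × ℝ) :=
  {p | (L a1 b1 p = 0 ∧ L a2 b2 p = 0) ∨ (L a1 b1 p = 0 ∧ L a3 b3 p = 0) ∨
    (L a2 b2 p = 0 ∧ L a3 b3 p = 0)}

/-- The open triangle cut out by three lines. -/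
def G (a1 b1 a2 b2 a3 b3 : ℕ) : Set (ℝ × ℝ) :=
  interior (convexHull ℝ (Corners a1 b1 a2 b2 a3 b3))

theorem corners_eq {a1 b1 a2 b2 a3 b3 : ℕ} {v1 v2 v3 : ℝ × ℝ}
    (hnc : ∀ i j, ¬ (L i j v1 = 0 ∧ L i j v2 = 0 ∧ L i j v3 = 0))
    (h12 : L a1 b1 v2 = 0) (h13 : L a1 b1 v3 = 0) (h21 : L a2 b2 v1 = 0) (h23 : L a2 b2 v3 = 0)
    (h31 : L a3 b3 v1 = 0) (h32 : L a3 b3 v2 = 0) :
    Corners a1 b1 a2 b2 a3 b3 = {v1, v2, v3} := by
  have h11 : L a1 b1 v1 ≠ 0 := fun h => hnc _ _ ⟨h, h12, h13⟩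
  have h22 : L a2 b2 v2 ≠ 0 := fun h => hnc _ _ ⟨h21, h, h23⟩
  have h33 : L a3 b3 v3 ≠ 0 := fun h => hnc _ _ ⟨h31, h32, h⟩
  ext p
  simp only [Corners, mem_ofPred_eq, mem_insert_iff, mem_singleton_iff]
  constructor
  · rintro (⟨h, h'⟩ | ⟨h, h'⟩ | ⟨h, h'⟩)
    · right; right
      exact uniq h13 h23 h h' h12 h22
    · right; left
      exact uniq h12 h32 h h' h13 h33
    · left
      exact uniq h21 h31 h h' h23 h33
  · rintro (rfl | rfl | rfl)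
    · exact Or.inr (Or.inr ⟨h21, h31⟩)
    · exact Or.inr (Or.inl ⟨h12, h32⟩)
    · exact Or.inl ⟨h13, h23⟩

theorem G_eq {a1 b1 a2 b2 a3 b3 : ℕ} {v1 v2 v3 : ℝ × ℝ}
    (hnc : ∀ i j, ¬ (L i j v1 = 0 ∧ L i j v2 = 0 ∧ L i j v3 = 0))
    (h12 : L a1 b1 v2 = 0) (h13 : L a1 b1 v3 = 0) (h21 : L a2 b2 v1 = 0) (h23 : L a2 b2 v3 = 0)
    (h31 : L a3 b3 v1 = 0) (h32 : L a3 b3 v2 = 0) :
    interior (convexHull ℝ {v1, v2, v3}) = G a1 b1 a2 b2 a3 b3 := by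
  rw [G, corners_eq hnc h12 h13 h21 h23 h31 h32]

/-- A triangle with its sides on three chords, not cut by any chord. -/
structure Trg (n : ℕ) (v1 v2 v3 : ℝ × ℝ) (a1 b1 a2 b2 a3 b3 : ℕ) : Prop where
  nc : ∀ i j, ¬ (L i j v1 = 0 ∧ L i j v2 = 0 ∧ L i j v3 = 0)
  A1 : v1 ∈ Above
  A2 : v2 ∈ Above
  A3 : v3 ∈ Above
  cut : ∀ i j, i < n → j < n → i ≠ j → ∀ u ∈ ({v1, v2, v3} : Set (ℝ × ℝ)),
    ∀ w ∈ ({v1, v2, v3} : Set (ℝ × ℝ)), ¬ (L i j u < 0 ∧ 0 < L i j w)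
  l1 : a1 < b1
  l2 : a2 < b2
  l3 : a3 < b3
  m1 : b1 < n
  m2 : b2 < n
  m3 : b3 < n
  h12 : L a1 b1 v2 = 0
  h13 : L a1 b1 v3 = 0
  h21 : L a2 b2 v1 = 0
  h23 : L a2 b2 v3 = 0
  h31 : L a3 b3 v1 = 0
  h32 : L a3 b3 v2 = 0

theorem Trg.swap12 {n : ℕ} {v1 v2 v3 : ℝ × ℝ} {a1 b1 a2 b2 a3 b3 : ℕ}
    (T : Trg n v1 v2 v3 a1 b1 a2 b2 a3 b3) : Trg n v2 v1 v3 a2 b2 a1 b1 a3 b3 := by
  refine ⟨fun i j h => T.nc i j ⟨h.2.1, h.1, h.2.2⟩, T.A2, T.A1, T.A3, ?_, T.l2, T.l1, T.l3,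
    T.m2, T.m1, T.m3, T.h21, T.h23, T.h12, T.h13, T.h32, T.h31⟩
  rw [Set.insert_comm]; exact T.cut

theorem Trg.swap23 {n : ℕ} {v1 v2 v3 : ℝ × ℝ} {a1 b1 a2 b2 a3 b3 : ℕ}
    (T : Trg n v1 v2 v3 a1 b1 a2 b2 a3 b3) : Trg n v1 v3 v2 a1 b1 a3 b3 a2 b2 := by
  refine ⟨fun i j h => T.nc i j ⟨h.1, h.2.2, h.2.1⟩, T.A1, T.A3, T.A2, ?_, T.l1, T.l3, T.l2,
    T.m1, T.m3, T.m2, T.h13, T.h12, T.h31, T.h32, T.h21, T.h23⟩
  rw [Set.pair_comm]; exact T.cut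

theorem Trg.eqG {n : ℕ} {v1 v2 v3 : ℝ × ℝ} {a1 b1 a2 b2 a3 b3 : ℕ}
    (T : Trg n v1 v2 v3 a1 b1 a2 b2 a3 b3) :
    interior (convexHull ℝ {v1, v2, v3}) = G a1 b1 a2 b2 a3 b3 :=
  G_eq T.nc T.h12 T.h13 T.h21 T.h23 T.h31 T.h32

/-- Sorted inner triangles are special. -/
theorem Trg.sorted {n : ℕ} {v1 v2 v3 : ℝ × ℝ} {a b c d e f : ℕ}
    (T : Trg n v1 v2 v3 a d b e c f) (n1 : ∀ k, v1 ≠ P k) (n2 : ∀ k, v2 ≠ P k)
    (hab : a < b) (hbc : b < c) (hcd : c < d) (hde : d < e) (hef : e < f) :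
    a = 0 ∧ c = b + 1 ∧ e = d + 1 ∧ f + 1 = n := by
  have hfn : f < n := T.m3
  have m1 : v1 ∈ ({v1, v2, v3} : Set (ℝ × ℝ)) := by simp
  have m2 : v2 ∈ ({v1, v2, v3} : Set (ℝ × ℝ)) := by simp
  have m3 : v3 ∈ ({v1, v2, v3} : Set (ℝ × ℝ)) := by simp
  refine ⟨?_, ?_, ?_, ?_⟩
  · by_contra h
    have ha : 0 < a := Nat.pos_of_ne_zero h
    have k1 : 0 < L 0 d v1 := orient_ad (ha.trans hab) hbc hcd hde hef T.h21 T.h31
    have k2 : L 0 d v2 < 0 := by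
      have e1 := L_sub d a 0 v2
      rw [L_comm d a, T.h12, sub_zero, L_comm d 0] at e1
      rw [e1]
      have := (sbetween T.l1 T.h12 T.A2 (n2 _) (n2 _)).2
      have := X_lt_iff.2 ha
      nlinarith
    exact T.cut 0 d (by omega) (by omega) (by omega) v2 m2 v1 m1 ⟨k2, k1⟩
  · by_contra h
    have k1 : L (b + 1) e v2 < 0 :=
      orient_be (by omega : a < b + 1) (by omega : b + 1 < c) hcd hde hef T.h12 T.h32
    have k2 : 0 < L (b + 1) e v1 := by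
      have e1 := L_sub e b (b + 1) v1
      rw [L_comm e b, T.h21, sub_zero, L_comm e (b + 1)] at e1
      rw [e1]
      have := (sbetween T.l2 T.h21 T.A1 (n1 _) (n1 _)).2
      have := X_lt_iff.2 (Nat.lt_succ_self b)
      have : X b < X (b + 1) := this
      nlinarith
    exact T.cut (b + 1) e (by omega) (by omega) (by omega) v2 m2 v1 m1 ⟨k1, k2⟩
  · by_contra h
    have k1 : L b (d + 1) v2 < 0 :=
      orient_be hab hbc hcd (by omega : d < d + 1) (by omega : d + 1 < f) T.h12 T.h32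
    have k2 : 0 < L b (d + 1) v1 := by
      have e1 := L_sub b e (d + 1) v1
      rw [T.h21, sub_zero] at e1
      rw [e1]
      have := (sbetween T.l2 T.h21 T.A1 (n1 _) (n1 _)).1
      have := X_lt_iff.2 (by omega : d + 1 < e)
      nlinarith
    exact T.cut b (d + 1) (by omega) (by omega) (by omega) v2 m2 v1 m1 ⟨k1, k2⟩
  · by_contra h
    have k1 : 0 < L c (n - 1) v3 :=
      orient_cf hab hbc hcd hde (by omega : e < n - 1) T.h13 T.h23
    have k2 : L c (n - 1) v2 < 0 := by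
      have e1 := L_sub c f (n - 1) v2
      rw [T.h32, sub_zero] at e1
      rw [e1]
      have := (sbetween T.l3 T.h32 T.A2 (n2 _) (n2 _)).1
      have := X_lt_iff.2 (by omega : f < n - 1)
      nlinarith
    exact T.cut c (n - 1) (by omega) (by omega) (by omega) v2 m2 v3 m3 ⟨k2, k1⟩

end Pool.Agent.Helper30.TriFace
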