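import Pool.Agent.Helper30.Tri2

namespace Pool.Agent.Helper30.TriFace

open Set

theorem Trg.inner {n : ℕ} {v1 v2 v3 : ℝ × ℝ} {a1 b1 a2 b2 a3 b3 : ℕ}
    (T : Trg n v1 v2 v3 a1 b1 a2 b2 a3 b3) (n1 : ∀ k, v1 ≠ P k) (n2 : ∀ k, v2 ≠ P k)
    (n3 : ∀ k, v3 ≠ P k) :
    ∃ i j : ℕ, 1 ≤ i ∧ i + 2 ≤ j ∧ j + 3 ≤ n ∧
      interior (convexHull ℝ {v1, v2, v3}) = G 0 j i (j + 1) (i + 1) (n - 1) := by
  have e23 : ¬ (a2 = a3 ∧ b2 = b3) := by
    rintro ⟨rfl, rfl⟩
    exact T.nc _ _ ⟨T.h21, T.h32, T.h23⟩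
  have e13 : ¬ (a1 = a3 ∧ b1 = b3) := by
    rintro ⟨rfl, rfl⟩
    exact T.nc _ _ ⟨T.h31, T.h12, T.h13⟩
  have e12 : ¬ (a1 = a2 ∧ b1 = b2) := by
    rintro ⟨rfl, rfl⟩
    exact T.nc _ _ ⟨T.h21, T.h12, T.h13⟩
  have i23 := interleave T.l2 T.l3 T.h21 T.h31 T.A1 (n1 _) (n1 _) (n1 _) (n1 _) e23
  have i13 := interleave T.l1 T.l3 T.h12 T.h32 T.A2 (n2 _) (n2 _) (n2 _) (n2 _) e13
  have i12 := interleave T.l1 T.l2 T.h13 T.h23 T.A3 (n3 _) (n3 _) (n3 _) (n3 _) e12
  have fin : ∀ {w1 w2 w3 : ℝ × ℝ} {a b c d e f : ℕ}, Trg n w1 w2 w3 a d b e c f →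
      (∀ k, w1 ≠ P k) → (∀ k, w2 ≠ P k) → a < b → b < c → c < d → d < e → e < f →
      ({w1, w2, w3} : Set (ℝ × ℝ)) = {v1, v2, v3} →
      ∃ i j : ℕ, 1 ≤ i ∧ i + 2 ≤ j ∧ j + 3 ≤ n ∧
      interior (convexHull ℝ {v1, v2, v3}) = G 0 j i (j + 1) (i + 1) (n - 1) := by
    intro w1 w2 w3 a b c d e f T' m1 m2 hab hbc hcd hde hef hw
    obtain ⟨rfl, rfl, rfl, hf⟩ := T'.sorted m1 m2 hab hbc hcd hde hef
    refine ⟨b, d, by omega, by omega, by omega, ?_⟩
    rw [← hw, T'.eqG]
    have : f = n - 1 := by omega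
    rw [this]
  have s12 : ({v2, v1, v3} : Set (ℝ × ℝ)) = {v1, v2, v3} := Set.insert_comm _ _ _
  have s23 : ({v1, v3, v2} : Set (ℝ × ℝ)) = {v1, v2, v3} := by rw [Set.pair_comm]
  have s231 : ({v2, v3, v1} : Set (ℝ × ℝ)) = {v1, v2, v3} := by
    rw [Set.pair_comm v3 v1, Set.insert_comm]
  have s312 : ({v3, v1, v2} : Set (ℝ × ℝ)) = {v1, v2, v3} := by
    rw [Set.insert_comm, Set.pair_comm v3 v2]
  have s321 : ({v3, v2, v1} : Set (ℝ × ℝ)) = {v1, v2, v3} := by
    rw [Set.pair_comm v2 v1, Set.insert_comm, Set.pair_comm v3 v2]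
  rcases i12 with ⟨p1, p2, p3⟩ | ⟨p1, p2, p3⟩ <;> rcases i13 with ⟨q1, q2, q3⟩ | ⟨q1, q2, q3⟩ <;>
    rcases i23 with ⟨r1, r2, r3⟩ | ⟨r1, r2, r3⟩
  · -- a1<a2<a3
    exact fin T n1 n2 p1 r1 q2 p3 r3 rfl
  · -- a1<a3<a2
    exact fin T.swap23 n1 n3 q1 r1 p2 q3 r3 s23
  · omega
  · -- a3<a1<a2
    exact fin T.swap23.swap12 n3 n1 q1 p1 r2 q3 p3 s312
  · -- a2<a1<a3
    exact fin T.swap12 n2 n1 p1 q1 r2 p3 q3 s12
  · omega
  · -- a2<a3<a1
    exact fin T.swap12.swap23 n2 n3 r1 q1 p2 r3 q3 s231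
  · -- a3<a2<a1
    exact fin T.swap12.swap23.swap12 n3 n2 r1 p1 q2 r3 p3 s321

/-- Cyclic representative. -/
def cy (n a : ℕ) : ℕ := if a < n then a else a - n

/-- The face at the vertex `v` with number `k`. -/
def phi (n v k : ℕ) : Set (ℝ × ℝ) :=
  G v (cy n (v + k + 1)) v (cy n (v + k + 2)) (cy n (v + n - 1)) (cy n (v + 1))

theorem cy_lt {n a : ℕ} (h : a < n) : cy n a = a := if_pos h

theorem cy_ge {n a : ℕ} (h : n ≤ a) : cy n a = a - n := if_neg (by omega)

theorem L_seg_nonneg {n p q v x y : ℕ} (hx : x < n) (hy : y < n) (hxy : x ≠ y) (hxv : x ≠ v)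
    (hyv : y ≠ v) (hpos : ∀ k < n, k ≠ v → 0 ≤ L p q (P k)) {u : ℝ × ℝ} (hu : L x y u = 0)
    (hA : u ∈ Above) : 0 ≤ L p q u := by
  obtain ⟨a, b, ha, hb, hab, rfl⟩ := (seg_iff hxy u).2 ⟨hu, hA⟩
  rw [L_comb _ _ _ _ hab]
  have := hpos x hx hxv
  have := hpos y hy hyv
  positivity

theorem L_seg_nonpos {n p q v x y : ℕ} (hx : x < n) (hy : y < n) (hxy : x ≠ y) (hxv : x ≠ v)
    (hyv : y ≠ v) (hpos : ∀ k < n, k ≠ v → L p q (P k) ≤ 0) {u : ℝ × ℝ} (hu : L x y u = 0)
    (hA : u ∈ Above) : L p q u ≤ 0 := by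
  obtain ⟨a, b, ha, hb, hab, rfl⟩ := (seg_iff hxy u).2 ⟨hu, hA⟩
  rw [L_comb _ _ _ _ hab]
  have h1 := hpos x hx hxv
  have h2 := hpos y hy hyv
  nlinarith [mul_nonneg ha (neg_nonneg.2 h1), mul_nonneg hb (neg_nonneg.2 h2)]

theorem ear {n v x y : ℕ} {v2 v3 : ℝ × ℝ} (hn : 4 ≤ n) (hv : v < n) (hx : x < n) (hy : y < n)
    (hxy : x ≠ y) (hxv : x ≠ v) (hyv : y ≠ v) (A2 : v2 ∈ Above) (A3 : v3 ∈ Above)
    (cut : ∀ i j, i < n → j < n → i ≠ j → ∀ u ∈ ({P v, v2, v3} : Set (ℝ × ℝ)),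
      ∀ w ∈ ({P v, v2, v3} : Set (ℝ × ℝ)), ¬ (L i j u < 0 ∧ 0 < L i j w))
    (hx2 : L x y v2 = 0) (hx3 : L x y v3 = 0) :
    L (cy n (v + n - 1)) (cy n (v + 1)) v2 = 0 ∧ L (cy n (v + n - 1)) (cy n (v + 1)) v3 = 0 := by
  have m1 : P v ∈ ({P v, v2, v3} : Set (ℝ × ℝ)) := by simp
  have m2 : v2 ∈ ({P v, v2, v3} : Set (ℝ × ℝ)) := by simp
  have m3 : v3 ∈ ({P v, v2, v3} : Set (ℝ × ℝ)) := by simp
  rcases Nat.eq_zero_or_pos v with h0 | h0
  · subst h0
    have hp : cy n (0 + n - 1) = n - 1 := by rw [cy_lt (by omega)]; omega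
    have hq : cy n (0 + 1) = 1 := by rw [cy_lt (by omega)]
    rw [hp, hq]
    have hP : 0 < L (n - 1) 1 (P 0) := by
      rw [L_P]
      have := X_lt_iff.2 (by omega : 0 < n - 1)
      have := X_lt_iff.2 (by omega : 0 < 1)
      nlinarith
    have hneg : ∀ k < n, k ≠ 0 → L (n - 1) 1 (P k) ≤ 0 := by
      intro k hk hk0
      rw [L_P]
      have h1 : X k ≤ X (n - 1) := X_strictMono.monotone (by omega)
      have h2 : X 1 ≤ X k := X_strictMono.monotone (by omega)
      nlinarith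
    have e2 := L_seg_nonpos hx hy hxy hxv hyv hneg hx2 A2
    have e3 := L_seg_nonpos hx hy hxy hxv hyv hneg hx3 A3
    refine ⟨le_antisymm e2 ?_, le_antisymm e3 ?_⟩
    · by_contra hc
      push Not at hc
      exact cut (n - 1) 1 (by omega) (by omega) (by omega) v2 m2 _ m1 ⟨hc, hP⟩
    · by_contra hc
      push Not at hc
      exact cut (n - 1) 1 (by omega) (by omega) (by omega) v3 m3 _ m1 ⟨hc, hP⟩
  · rcases Nat.lt_or_ge (v + 1) n with h1 | h1
    · have hp : cy n (v + n - 1) = v - 1 := by rw [cy_ge (by omega)]; omega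
      have hq : cy n (v + 1) = v + 1 := by rw [cy_lt (by omega)]
      rw [hp, hq]
      have hP : L (v - 1) (v + 1) (P v) < 0 := by
        rw [L_P]
        have := X_lt_iff.2 (by omega : v - 1 < v)
        have := X_lt_iff.2 (by omega : v < v + 1)
        nlinarith
      have hneg : ∀ k < n, k ≠ v → 0 ≤ L (v - 1) (v + 1) (P k) := by
        intro k hk hk0
        rw [L_P]
        have h3 : X (v - 1) ≤ X (v + 1) := X_strictMono.monotone (by omega)
        rcases Nat.lt_or_ge k v with h | h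
        · have h2 : X k ≤ X (v - 1) := X_strictMono.monotone (by omega)
          nlinarith
        · have h2 : X (v + 1) ≤ X k := X_strictMono.monotone (by omega)
          nlinarith
      have e2 := L_seg_nonneg hx hy hxy hxv hyv hneg hx2 A2
      have e3 := L_seg_nonneg hx hy hxy hxv hyv hneg hx3 A3
      refine ⟨le_antisymm ?_ e2, le_antisymm ?_ e3⟩
      · by_contra hc
        push Not at hc
        exact cut (v - 1) (v + 1) (by omega) (by omega) (by omega) _ m1 v2 m2 ⟨hP, hc⟩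
      · by_contra hc
        push Not at hc
        exact cut (v - 1) (v + 1) (by omega) (by omega) (by omega) _ m1 v3 m3 ⟨hP, hc⟩
    · have hvn : v = n - 1 := by omega
      have hp : cy n (v + n - 1) = n - 2 := by rw [cy_ge (by omega)]; omega
      have hq : cy n (v + 1) = 0 := by rw [cy_ge (by omega)]; omega
      rw [hp, hq]
      have hP : 0 < L (n - 2) 0 (P v) := by
        rw [L_P]
        have := X_lt_iff.2 (by omega : n - 2 < v)
        have := X_lt_iff.2 (by omega : 0 < v)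
        nlinarith
      have hneg : ∀ k < n, k ≠ v → L (n - 2) 0 (P k) ≤ 0 := by
        intro k hk hk0
        rw [L_P]
        have h1 : X k ≤ X (n - 2) := X_strictMono.monotone (by omega)
        have h2 : X 0 ≤ X k := X_strictMono.monotone (by omega)
        nlinarith
      have e2 := L_seg_nonpos hx hy hxy hxv hyv hneg hx2 A2
      have e3 := L_seg_nonpos hx hy hxy hxv hyv hneg hx3 A3
      refine ⟨le_antisymm e2 ?_, le_antisymm e3 ?_⟩
      · by_contra hc
        push Not at hc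
        exact cut (n - 2) 0 (by omega) (by omega) (by omega) v2 m2 _ m1 ⟨hc, hP⟩
      · by_contra hc
        push Not at hc
        exact cut (n - 2) 0 (by omega) (by omega) (by omega) v3 m3 _ m1 ⟨hc, hP⟩

theorem vertex_aux {n v w w' x y : ℕ} {v2 v3 : ℝ × ℝ} (hn : 4 ≤ n) (hv : v < n) (hw : w < n)
    (hw' : w' < n) (hwv : w ≠ v) (hwv' : w' ≠ v) (hww : w < w') (hx : x < n) (hy : y < n)
    (hxy : x ≠ y) (A2 : v2 ∈ Above) (A3 : v3 ∈ Above)
    (nc : ∀ i j, ¬ (L i j (P v) = 0 ∧ L i j v2 = 0 ∧ L i j v3 = 0))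
    (cut : ∀ i j, i < n → j < n → i ≠ j → ∀ u ∈ ({P v, v2, v3} : Set (ℝ × ℝ)),
      ∀ w ∈ ({P v, v2, v3} : Set (ℝ × ℝ)), ¬ (L i j u < 0 ∧ 0 < L i j w))
    (h2 : L v w v2 = 0) (h3 : L v w' v3 = 0) (hx2 : L x y v2 = 0) (hx3 : L x y v3 = 0) :
    ∃ u k : ℕ, u < n ∧ k + 3 < n ∧ interior (convexHull ℝ {P v, v2, v3}) = phi n u k := by
  have m1 : P v ∈ ({P v, v2, v3} : Set (ℝ × ℝ)) := by simp
  have m2 : v2 ∈ ({P v, v2, v3} : Set (ℝ × ℝ)) := by simp
  have m3 : v3 ∈ ({P v, v2, v3} : Set (ℝ × ℝ)) := by simp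
  have hP : ∀ c, L v c (P v) = 0 := fun c => by rw [L_P]; ring
  have ne2 : v2.1 ≠ X v := fun h => by
    have := eq_P_of_fst h2 h
    exact nc v w' ⟨hP _, by rw [this]; exact hP _, h3⟩
  have ne3 : v3.1 ≠ X v := fun h => by
    have := eq_P_of_fst h3 h
    exact nc v w ⟨hP _, h2, by rw [this]; exact hP _⟩
  have e2 : ∀ c, L v c v2 = (X w - X c) * (v2.1 - X v) := fun c => by
    have := L_sub v w c v2
    rw [h2, sub_zero] at this
    exact this
  have e3 : ∀ c, L v c v3 = (X w' - X c) * (v3.1 - X v) := fun c => by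
    have := L_sub v w' c v3
    rw [h3, sub_zero] at this
    exact this
  have hxv : x ≠ v := by
    rintro rfl
    exact nc x y ⟨hP _, hx2, hx3⟩
  have hyv : y ≠ v := by
    rintro rfl
    exact nc x y ⟨by rw [L_comm]; exact hP _, hx2, hx3⟩
  obtain ⟨r2, r3⟩ := ear hn hv hx hy hxy hxv hyv A2 A3 cut hx2 hx3
  -- three permutations of the corners
  have perm1 : ({v3, v2, P v} : Set (ℝ × ℝ)) = {P v, v2, v3} := by
    rw [Set.pair_comm v2 (P v), Set.insert_comm, Set.pair_comm v3 v2]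
  have perm2 : ({v2, v3, P v} : Set (ℝ × ℝ)) = {P v, v2, v3} := by
    rw [Set.pair_comm v3 (P v), Set.insert_comm]
  -- the non-exceptional conclusions
  have fin1 : ∀ k, k + 3 < n → cy n (v + k + 1) = w → cy n (v + k + 2) = w' →
      ∃ u k : ℕ, u < n ∧ k + 3 < n ∧ interior (convexHull ℝ {P v, v2, v3}) = phi n u k := by
    intro k hk hk1 hk2
    refine ⟨v, k, hv, hk, ?_⟩
    rw [phi, hk1, hk2, ← perm1]
    refine G_eq ?_ h2 (hP _) h3 (hP _) r3 r2
    rintro i j ⟨h, h', h''⟩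
    exact nc i j ⟨h'', h', h⟩
  have fin2 : ∀ k, k + 3 < n → cy n (v + k + 1) = w' → cy n (v + k + 2) = w →
      ∃ u k : ℕ, u < n ∧ k + 3 < n ∧ interior (convexHull ℝ {P v, v2, v3}) = phi n u k := by
    intro k hk hk1 hk2
    refine ⟨v, k, hv, hk, ?_⟩
    rw [phi, hk1, hk2, ← perm2]
    refine G_eq ?_ h3 (hP _) h2 (hP _) r2 r3
    rintro i j ⟨h, h', h''⟩
    exact nc i j ⟨h'', h, h'⟩
  rcases Nat.lt_or_ge v w with hvw | hvw
  · -- v < w < w'
    have p2 : X v < v2.1 := lt_of_le_of_ne (between hvw h2 A2).1 (Ne.symm ne2)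
    have p3 : X v < v3.1 := lt_of_le_of_ne (between (hvw.trans hww) h3 A3).1 (Ne.symm ne3)
    have hcons : w' = w + 1 := by
      by_contra hc
      have k2 : L v (w + 1) v2 < 0 := by
        rw [e2]
        have := X_lt_iff.2 (Nat.lt_succ_self w)
        have : X w < X (w + 1) := this
        nlinarith
      have k3 : 0 < L v (w + 1) v3 := by
        rw [e3]
        have := X_lt_iff.2 (by omega : w + 1 < w')
        nlinarith
      exact cut v (w + 1) hv (by omega) (by omega) _ m2 _ m3 ⟨k2, k3⟩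
    subst hcons
    by_cases hexc : w - v + 2 < n
    · refine fin1 (w - v - 1) (by omega) ?_ ?_
      · rw [cy_lt (by omega)]; omega
      · rw [cy_lt (by omega)]; omega
    · -- v = 0, w = n - 2
      have hv0 : v = 0 := by omega
      have hwn : w = n - 2 := by omega
      subst hv0
      subst hwn
      refine ⟨n - 1, 0, by omega, by omega, ?_⟩
      have c1 : cy n (n - 1 + 0 + 1) = 0 := by rw [cy_ge (by omega)]; omega
      have c2 : cy n (n - 1 + 0 + 2) = 1 := by rw [cy_ge (by omega)]; omega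
      have c3 : cy n (n - 1 + n - 1) = n - 2 := by rw [cy_ge (by omega)]; omega
      have c4 : cy n (n - 1 + 1) = 0 := by rw [cy_ge (by omega)]; omega
      have c5 : cy n (0 + n - 1) = n - 1 := by rw [cy_lt (by omega)]; omega
      have c6 : cy n (0 + 1) = 1 := by rw [cy_lt (by omega)]
      rw [phi, c1, c2, c3]
      rw [c5, c6] at r2 r3
      have hs : n - 2 + 1 = n - 1 := by omega
      rw [hs] at h3
      -- chord 1 : (n-1,0) ∋ P 0, v3 ; chord 2 : (n-1,1) ∋ v2, v3 ; chord 3 : (n-2,0) ∋ P 0, v2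
      have hperm : ({v2, P 0, v3} : Set (ℝ × ℝ)) = {P 0, v2, v3} := Set.insert_comm _ _ _
      rw [← hperm]
      refine G_eq ?_ ?_ ?_ r2 r3 ?_ ?_
      · rintro i j ⟨h, h', h''⟩
        exact nc i j ⟨h', h, h''⟩
      · rw [L_comm]; exact hP _
      · rw [L_comm]; exact h3
      · rw [L_comm]; exact h2
      · rw [L_comm]; exact hP _
  · have hwv1 : w < v := lt_of_le_of_ne hvw hwv
    have p2 : v2.1 < X v := by
      have h2' : L w v v2 = 0 := by rw [L_comm]; exact h2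
      exact lt_of_le_of_ne (between hwv1 h2' A2).2 ne2
    rcases Nat.lt_or_ge v w' with hvw' | hvw'
    · -- w < v < w'
      have p3 : X v < v3.1 := lt_of_le_of_ne (between hvw' h3 A3).1 (Ne.symm ne3)
      have hw0 : w = 0 := by
        by_contra hc
        have k2 : L v 0 v2 < 0 := by
          rw [e2]
          have := X_lt_iff.2 (Nat.pos_of_ne_zero hc)
          nlinarith
        have k3 : 0 < L v 0 v3 := by
          rw [e3]
          have := X_lt_iff.2 (by omega : 0 < w')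
          nlinarith
        exact cut v 0 hv (by omega) (by omega) _ m2 _ m3 ⟨k2, k3⟩
      have hwn : w' = n - 1 := by
        by_contra hc
        have k2 : 0 < L v (n - 1) v2 := by
          rw [e2]
          have := X_lt_iff.2 (by omega : w < n - 1)
          nlinarith
        have k3 : L v (n - 1) v3 < 0 := by
          rw [e3]
          have := X_lt_iff.2 (by omega : w' < n - 1)
          nlinarith
        exact cut v (n - 1) hv (by omega) (by omega) _ m3 _ m2 ⟨k3, k2⟩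
      by_cases hexc : 2 ≤ v
      · refine fin2 (n - 2 - v) (by omega) ?_ ?_
        · rw [cy_lt (by omega)]; omega
        · rw [cy_ge (by omega)]; omega
      · -- v = 1
        have hv1 : v = 1 := by omega
        subst hv1
        subst hw0
        subst hwn
        refine ⟨0, 0, by omega, by omega, ?_⟩
        have c1 : cy n (0 + 0 + 1) = 1 := by rw [cy_lt (by omega)]
        have c2 : cy n (0 + 0 + 2) = 2 := by rw [cy_lt (by omega)]
        have c3 : cy n (0 + n - 1) = n - 1 := by rw [cy_lt (by omega)]; omega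
        have c4 : cy n (0 + 1) = 1 := by rw [cy_lt (by omega)]
        have c5 : cy n (1 + n - 1) = 0 := by rw [cy_ge (by omega)]; omega
        have c6 : cy n (1 + 1) = 2 := by rw [cy_lt (by omega)]
        rw [phi, c1, c2, c3]
        rw [c5, c6] at r2 r3
        -- chord 1 : (0,1) ∋ P 1, v2 ; chord 2 : (0,2) ∋ v2, v3 ; chord 3 : (n-1,1) ∋ P 1, v3
        have hperm : ({v3, P 1, v2} : Set (ℝ × ℝ)) = {P 1, v2, v3} := by
          rw [Set.insert_comm, Set.pair_comm v3 v2]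
        rw [← hperm]
        refine G_eq ?_ ?_ ?_ r3 r2 ?_ ?_
        · rintro i j ⟨h, h', h''⟩
          exact nc i j ⟨h', h'', h⟩
        · rw [L_comm]; exact hP _
        · rw [L_comm]; exact h2
        · rw [L_comm]; exact h3
        · rw [L_comm]; exact hP _
    · -- w < w' < v
      have hwv2 : w' < v := lt_of_le_of_ne hvw' hwv'
      have p3 : v3.1 < X v := by
        have h3' : L w' v v3 = 0 := by rw [L_comm]; exact h3
        exact lt_of_le_of_ne (between hwv2 h3' A3).2 ne3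
      have hcons : w' = w + 1 := by
        by_contra hc
        have k2 : 0 < L v (w + 1) v2 := by
          rw [e2]
          have := X_lt_iff.2 (Nat.lt_succ_self w)
          have : X w < X (w + 1) := this
          nlinarith
        have k3 : L v (w + 1) v3 < 0 := by
          rw [e3]
          have := X_lt_iff.2 (by omega : w + 1 < w')
          nlinarith
        exact cut v (w + 1) hv (by omega) (by omega) _ m3 _ m2 ⟨k3, k2⟩
      subst hcons
      by_cases hexc : w + 3 ≤ v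
      · refine fin1 (w + n - v - 1) (by omega) ?_ ?_
        · rw [cy_ge (by omega)]; omega
        · rw [cy_ge (by omega)]; omega
      · -- v = w + 2
        have hvw2 : v = w + 2 := by omega
        subst hvw2
        refine ⟨w + 1, 0, by omega, by omega, ?_⟩
        have c1 : cy n (w + 1 + 0 + 1) = w + 2 := by rw [cy_lt (by omega)]
        have c3 : cy n (w + 1 + n - 1) = w := by rw [cy_ge (by omega)]; omega
        have c4 : cy n (w + 1 + 1) = w + 2 := by rw [cy_lt (by omega)]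
        have c5 : cy n (w + 2 + n - 1) = w + 1 := by rw [cy_ge (by omega)]; omega
        have c6 : w + 1 + 0 + 2 = w + 2 + 1 := by omega
        rw [phi, c6, c1, c3]
        rw [c5] at r2 r3
        -- chord 1 : (w+1,w+2) ∋ P v, v3 ; chord 2 : ear ∋ v2, v3 ; chord 3 : (w,w+2) ∋ P v, v2
        have hperm : ({v2, P (w + 2), v3} : Set (ℝ × ℝ)) = {P (w + 2), v2, v3} :=
          Set.insert_comm _ _ _
        rw [← hperm]
        refine G_eq ?_ ?_ ?_ r2 r3 ?_ ?_
        · rintro i j ⟨h, h', h''⟩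
          exact nc i j ⟨h', h, h''⟩
        · rw [L_comm]; exact hP _
        · rw [L_comm]; exact h3
        · rw [L_comm]; exact h2
        · rw [L_comm]; exact hP _

theorem Trg.vertex {n v : ℕ} {v2 v3 : ℝ × ℝ} {a1 b1 a2 b2 a3 b3 : ℕ} (hn : 4 ≤ n) (hv : v < n)
    (T : Trg n (P v) v2 v3 a1 b1 a2 b2 a3 b3) :
    ∃ u k : ℕ, u < n ∧ k + 3 < n ∧ interior (convexHull ℝ {P v, v2, v3}) = phi n u k := by
  have m1 := T.m1
  have m2 := T.m2
  have m3 := T.m3
  have l1 := T.l1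
  have l2 := T.l2
  have l3 := T.l3
  have hP : ∀ c, L v c (P v) = 0 := fun c => by rw [L_P]; ring
  obtain ⟨w', hw', hwv', h3⟩ : ∃ w', w' < n ∧ w' ≠ v ∧ L v w' v3 = 0 := by
    have := T.h21
    rw [L_P] at this
    rcases mul_eq_zero.1 this with h | h
    · have : v = a2 := X_inj.1 (by linarith)
      subst this
      exact ⟨b2, by omega, by omega, T.h23⟩
    · have : v = b2 := X_inj.1 (by linarith)
      subst this
      exact ⟨a2, by omega, by omega, by rw [L_comm]; exact T.h23⟩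
  obtain ⟨w, hw, hwv, h2⟩ : ∃ w, w < n ∧ w ≠ v ∧ L v w v2 = 0 := by
    have := T.h31
    rw [L_P] at this
    rcases mul_eq_zero.1 this with h | h
    · have : v = a3 := X_inj.1 (by linarith)
      subst this
      exact ⟨b3, by omega, by omega, T.h32⟩
    · have : v = b3 := X_inj.1 (by linarith)
      subst this
      exact ⟨a3, by omega, by omega, by rw [L_comm]; exact T.h32⟩
  have hne : w ≠ w' := by
    rintro rfl
    exact T.nc v w ⟨hP _, h2, h3⟩
  rcases lt_or_gt_of_ne hne with h | h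
  · exact vertex_aux hn hv hw hw' hwv hwv' h (by omega) m1 (by omega) T.A2 T.A3 T.nc T.cut h2 h3
      T.h12 T.h13
  · have := vertex_aux hn hv hw' hw hwv' hwv h (by omega) m1 (by omega) T.A3 T.A2 T.swap23.nc
      T.swap23.cut h3 h2 T.h13 T.h12
    rwa [Set.pair_comm v3 v2] at this

/-- Every triangle bounded by three chords and not cut by a chord is one of the listed ones. -/
theorem Trg.classify {n : ℕ} {v1 v2 v3 : ℝ × ℝ} {a1 b1 a2 b2 a3 b3 : ℕ} (hn : 4 ≤ n)
    (T : Trg n v1 v2 v3 a1 b1 a2 b2 a3 b3) :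
    (∃ u k : ℕ, u < n ∧ k + 3 < n ∧ interior (convexHull ℝ {v1, v2, v3}) = phi n u k) ∨
    (∃ i j : ℕ, 1 ≤ i ∧ i + 2 ≤ j ∧ j + 3 ≤ n ∧
      interior (convexHull ℝ {v1, v2, v3}) = G 0 j i (j + 1) (i + 1) (n - 1)) := by
  have lt_of : ∀ {k a b : ℕ}, a < n → b < n → L a b (P k) = 0 → k < n := by
    intro k a b ha hb h
    rw [L_P] at h
    rcases mul_eq_zero.1 h with h | h
    · rw [X_inj.1 (by linarith : X k = X a)]; exact ha
    · rw [X_inj.1 (by linarith : X k = X b)]; exact hb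
  by_cases n1 : ∀ k, v1 ≠ P k
  · by_cases n2 : ∀ k, v2 ≠ P k
    · by_cases n3 : ∀ k, v3 ≠ P k
      · exact Or.inr (T.inner n1 n2 n3)
      · left
        push Not at n3
        obtain ⟨k, rfl⟩ := n3
        have hk : k < n := lt_of (T.l1.trans T.m1) T.m1 T.h13
        have := (T.swap23.swap12).vertex hn hk
        rw [Set.insert_comm, Set.pair_comm] at this
        exact this
    · left
      push Not at n2
      obtain ⟨k, rfl⟩ := n2
      have hk : k < n := lt_of (T.l1.trans T.m1) T.m1 T.h12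
      have := (T.swap12).vertex hn hk
      rw [Set.insert_comm] at this
      exact this
  · left
    push Not at n1
    obtain ⟨k, rfl⟩ := n1
    have hk : k < n := lt_of (T.l2.trans T.m2) T.m2 T.h21
    exact T.vertex hn hk

end Pool.Agent.Helper30.TriFace
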