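import Pool.Agent.Helper30.TriDefs

/-!
The lower bound: every convex drawing of `K_n` has at least `n(n-3)` triangular faces.
-/

namespace Pool.Agent.Helper30.TriFace

open Set

/-- Twice the signed area of the triangle `abc`. -/
def det3 (a b c : ℝ × ℝ) : ℝ := (b.1 - a.1) * (c.2 - a.2) - (b.2 - a.2) * (c.1 - a.1)

theorem det3_cyc (a b c : ℝ × ℝ) : det3 a b c = det3 b c a := by unfold det3; ring

theorem det3_swap (a b c : ℝ × ℝ) : det3 a b c = - det3 a c b := by unfold det3; ring

theorem det3_left (a b : ℝ × ℝ) : det3 a b a = 0 := by unfold det3; ring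

theorem det3_right (a b : ℝ × ℝ) : det3 a b b = 0 := by unfold det3; ring

theorem det3_comb (a b x y : ℝ × ℝ) {s t : ℝ} (h : s + t = 1) :
    det3 a b (s • x + t • y) = s * det3 a b x + t * det3 a b y := by
  unfold det3
  simp only [Prod.fst_add, Prod.smul_fst, Prod.snd_add, Prod.smul_snd, smul_eq_mul]
  have ht : t = 1 - s := by linarith
  subst ht
  ring

theorem det3_continuous (a b : ℝ × ℝ) : Continuous (det3 a b) := by
  unfold det3; fun_prop

theorem line_param {a b x : ℝ × ℝ} (hab : a ≠ b) (h : det3 a b x = 0) :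
    ∃ r : ℝ, x = (1 - r) • a + r • b := by
  by_cases h1 : b.1 - a.1 = 0
  · have h2 : b.2 - a.2 ≠ 0 := by
      intro h2
      exact hab (Prod.ext (by linarith) (by linarith))
    refine ⟨(x.2 - a.2) / (b.2 - a.2), ?_⟩
    have hx1 : x.1 = a.1 := by
      unfold det3 at h
      rw [h1] at h
      have : (b.2 - a.2) * (x.1 - a.1) = 0 := by linarith
      rcases mul_eq_zero.1 this with h | h
      · exact absurd h h2
      · linarith
    ext
    · simp only [Prod.fst_add, Prod.smul_fst, smul_eq_mul]
      have : b.1 = a.1 := by linarith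
      rw [this, hx1]; ring
    · simp only [Prod.snd_add, Prod.smul_snd, smul_eq_mul]
      field_simp
      ring
  · refine ⟨(x.1 - a.1) / (b.1 - a.1), ?_⟩
    ext
    · simp only [Prod.fst_add, Prod.smul_fst, smul_eq_mul]
      field_simp
      ring
    · simp only [Prod.snd_add, Prod.smul_snd, smul_eq_mul]
      unfold det3 at h
      field_simp
      linear_combination h

section indep

variable {n : ℕ} {p : Fin n → ℝ × ℝ}

theorem end_le (hp : ConvexIndependent ℝ p) {i j : Fin n} (hij : i ≠ j) {x : ℝ × ℝ}
    (hx : x ∈ convexHull ℝ (range p)) {r : ℝ} (hr : x = (1 - r) • p i + r • p j) : r ≤ 1 := by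
  by_contra hc
  push Not at hc
  have hrange : range p = insert (p j) (p '' {j}ᶜ) := by
    ext y
    constructor
    · rintro ⟨k, rfl⟩
      by_cases h : k = j
      · left; rw [h]
      · right; exact ⟨k, h, rfl⟩
    · rintro (rfl | ⟨k, -, rfl⟩)
      · exact mem_range_self _
      · exact mem_range_self _
  have hnem : (p '' {j}ᶜ).Nonempty := ⟨p i, i, hij, rfl⟩
  rw [hrange, convexHull_insert hnem, mem_convexJoin] at hx
  obtain ⟨_, rfl, y, hy, s, t, hs, ht, hst, hxy⟩ := hx
  have hrs : 0 < r - s := by linarith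
  have key : p j = (t / (r - s)) • y + ((r - 1) / (r - s)) • p i := by
    have e := hxy.trans hr
    have e1 := congrArg Prod.fst e
    have e2 := congrArg Prod.snd e
    simp only [Prod.fst_add, Prod.smul_fst, Prod.snd_add, Prod.smul_snd, smul_eq_mul] at e1 e2
    ext
    · simp only [Prod.fst_add, Prod.smul_fst, smul_eq_mul]
      field_simp
      linear_combination -e1
    · simp only [Prod.snd_add, Prod.smul_snd, smul_eq_mul]
      field_simp
      linear_combination -e2
  have hmem : p j ∈ convexHull ℝ (p '' {j}ᶜ) := by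
    rw [key]
    refine convex_convexHull ℝ _ hy (subset_convexHull ℝ _ ⟨i, hij, rfl⟩) (by positivity)
      (div_nonneg (by linarith) hrs.le) ?_
    field_simp
    linarith
  exact hp _ _ hmem rfl

theorem hull_line (hp : ConvexIndependent ℝ p) {i j : Fin n} (hij : i ≠ j) {x : ℝ × ℝ}
    (hx : x ∈ convexHull ℝ (range p)) (h : det3 (p i) (p j) x = 0) :
    x ∈ segment ℝ (p i) (p j) := by
  obtain ⟨r, hr⟩ := line_param (fun h => hij (hp.injective h)) h
  have h1 := end_le hp hij hx hr
  have h2 : 1 - r ≤ 1 := by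
    apply end_le hp (Ne.symm hij) hx
    rw [hr, add_comm]
    congr 2
    ring
  exact ⟨1 - r, r, by linarith, by linarith, by ring, hr.symm⟩

theorem det3_ne (hp : ConvexIndependent ℝ p) {i j k : Fin n} (hij : i ≠ j) (hik : i ≠ k)
    (hjk : j ≠ k) : det3 (p i) (p j) (p k) ≠ 0 := by
  intro h
  have h1 := hull_line hp hij (subset_convexHull ℝ _ (mem_range_self k)) h
  have h2 : p k ∈ convexHull ℝ (p '' {i, j}) := by
    rw [image_pair, convexHull_pair]
    exact h1
  rcases hp _ _ h2 with h | h
  · exact hik h.symm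
  · exact hjk h.symm

theorem bary (a b c x : ℝ × ℝ) (hD : det3 a b c ≠ 0) :
    x = (det3 x b c / det3 a b c) • a + (det3 a x c / det3 a b c) • b +
      (det3 a b x / det3 a b c) • c := by
  ext
  · simp only [Prod.fst_add, Prod.smul_fst, smul_eq_mul]
    field_simp
    unfold det3
    ring
  · simp only [Prod.snd_add, Prod.smul_snd, smul_eq_mul]
    field_simp
    unfold det3
    ring

theorem bary_mem {a b c x : ℝ × ℝ} (hD : 0 < det3 a b c) (h1 : 0 ≤ det3 x b c)
    (h2 : 0 ≤ det3 a x c) (h3 : 0 ≤ det3 a b x) : x ∈ convexHull ℝ {a, b, c} := by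
  rw [bary a b c x hD.ne']
  have hsum : det3 x b c / det3 a b c + det3 a x c / det3 a b c + det3 a b x / det3 a b c = 1 := by
    field_simp
    unfold det3
    ring
  rw [convexHull_insert ⟨b, by simp⟩, mem_convexJoin]
  by_cases hz : det3 a x c + det3 a b x = 0
  · have z2 : det3 a x c = 0 := by linarith
    have z3 : det3 a b x = 0 := by linarith
    refine ⟨a, rfl, b, subset_convexHull ℝ _ (by simp), det3 x b c / det3 a b c, 0,
      by positivity, le_rfl, ?_, ?_⟩
    · rw [z2, z3] at hsum
      simpa using hsum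
    · rw [z2, z3]
      simp
  · have hpos : 0 < det3 a x c + det3 a b x := lt_of_le_of_ne (by linarith) (Ne.symm hz)
    refine ⟨a, rfl, (det3 a x c / (det3 a x c + det3 a b x)) • b +
      (det3 a b x / (det3 a x c + det3 a b x)) • c, ?_, det3 x b c / det3 a b c,
      (det3 a x c + det3 a b x) / det3 a b c, by positivity, by positivity, ?_, ?_⟩
    · rw [convexHull_pair]
      exact ⟨_, _, by positivity, by positivity, by field_simp, rfl⟩
    · rw [← hsum]; ring
    · ext
      · simp only [Prod.fst_add, Prod.smul_fst, smul_eq_mul]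
        field_simp
        ring
      · simp only [Prod.snd_add, Prod.smul_snd, smul_eq_mul]
        field_simp
        ring

theorem beyond (hp : ConvexIndependent ℝ p) {v a b x : Fin n} (hxv : x ≠ v) (hxa : x ≠ a)
    (hxb : x ≠ b) (h1 : 0 < det3 (p v) (p a) (p b)) (h2 : 0 < det3 (p v) (p a) (p x))
    (h3 : 0 < det3 (p v) (p x) (p b)) : det3 (p a) (p b) (p x) < 0 := by
  by_contra hc
  push Not at hc
  have hmem := bary_mem (x := p x) h1 (by rw [det3_cyc]; exact hc) h3.le h2.le
  have : p x ∈ convexHull ℝ (p '' {v, a, b}) := by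
    rw [image_insert_eq, image_pair]
    exact hmem
  rcases hp _ _ this with h | h | h
  · exact hxv h
  · exact hxa h
  · exact hxb h

theorem det3_trans (hp : ConvexIndependent ℝ p) {v i j k : Fin n} (hi : i ≠ v) (hj : j ≠ v)
    (hk : k ≠ v) (h1 : 0 < det3 (p v) (p i) (p j)) (h2 : 0 < det3 (p v) (p j) (p k)) :
    0 < det3 (p v) (p i) (p k) := by
  by_contra hc
  have hik : i ≠ k := by
    rintro rfl
    rw [det3_swap] at h2
    linarith
  have hne := det3_ne hp (Ne.symm hi) (Ne.symm hk) hik
  have hneg : det3 (p v) (p i) (p k) < 0 := lt_of_le_of_ne (not_lt.1 hc) hne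
  have hsum : det3 (p i) (p j) (p k) = det3 (p v) (p j) (p k) - det3 (p v) (p i) (p k) +
      det3 (p v) (p i) (p j) := by unfold det3; ring
  have hD : 0 < det3 (p i) (p j) (p k) := by linarith
  have hmem := bary_mem (x := p v) hD h2.le
    (by
      have : det3 (p i) (p v) (p k) = - det3 (p v) (p i) (p k) := by unfold det3; ring
      linarith)
    (by rw [← det3_cyc]; exact h1.le)
  have : p v ∈ convexHull ℝ (p '' {i, j, k}) := by
    rw [image_insert_eq, image_pair]
    exact hmem
  rcases hp _ _ this with h | h | h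
  · exact hi h.symm
  · exact hj h.symm
  · exact hk h.symm

end indep

end Pool.Agent.Helper30.TriFace
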