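import Pool.Agent.Helper30.Tri5

namespace Pool.Agent.Helper30.TriFace

open Set

/-- Relabelling the vertices does not change the number of `3`-faces. -/
theorem num_relabel {n : ℕ} (D : ConvexDrawing n) (σ : Fin n ≃ Fin n) :
    ∃ D' : ConvexDrawing n, D'.pt = D.pt ∘ σ ∧ numThreeFaces D' = numThreeFaces D := by
  refine ⟨⟨D.pt ∘ σ, D.convexPosition.comp_embedding σ.toEmbedding⟩, rfl, ?_⟩
  have h1 : range (D.pt ∘ σ) = range D.pt := σ.surjective.range_comp D.pt
  have h2 : edges (⟨D.pt ∘ σ, D.convexPosition.comp_embedding σ.toEmbedding⟩ : ConvexDrawing n) =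
      edges D := by
    ext x
    constructor
    · rintro ⟨i, j, hij, h⟩
      exact ⟨σ i, σ j, fun h => hij (σ.injective h), h⟩
    · rintro ⟨i, j, hij, h⟩
      refine ⟨σ.symm i, σ.symm j, fun h => hij (σ.symm.injective h), ?_⟩
      simpa using h
  unfold numThreeFaces IsThreeFace IsFace
  rw [h2]
  simp only [h1]

/-- The vertices are listed in counterclockwise order. -/
def Ccw {n : ℕ} (p : Fin n → ℝ × ℝ) : Prop :=
  ∀ i j k : Fin n, i < j → j < k → 0 < det3 (p i) (p j) (p k)

theorem exists_ccw {n : ℕ} (hn : 0 < n) {p : Fin n → ℝ × ℝ} (hp : ConvexIndependent ℝ p) :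
    ∃ σ : Fin n ≃ Fin n, Ccw (p ∘ σ) := by
  classical
  set v : Fin n := ⟨0, hn⟩ with hv
  let S : Fin n → Finset (Fin n) := fun i =>
    Finset.univ.filter (fun j => j ≠ v ∧ 0 < det3 (p v) (p j) (p i))
  have hSmono : ∀ {i j : Fin n}, i ≠ v → j ≠ v → 0 < det3 (p v) (p i) (p j) →
      (S i).card < (S j).card := by
    intro i j hi hj h
    apply Finset.card_lt_card
    rw [Finset.ssubset_iff_of_subset]
    · refine ⟨i, ?_, ?_⟩
      · simp only [S, Finset.mem_filter, Finset.mem_univ, true_and]
        exact ⟨hi, h⟩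
      · simp only [S, Finset.mem_filter, Finset.mem_univ, true_and, not_and]
        intro _
        rw [det3_right]
        exact lt_irrefl _
    · intro k hk
      simp only [S, Finset.mem_filter, Finset.mem_univ, true_and] at hk ⊢
      exact ⟨hk.1, det3_trans hp hk.1 hi hj hk.2 h⟩
  have htot : ∀ {i j : Fin n}, i ≠ v → j ≠ v → i ≠ j → 0 < det3 (p v) (p i) (p j) ∨
      0 < det3 (p v) (p j) (p i) := by
    intro i j hi hj hij
    rcases lt_or_gt_of_ne (det3_ne hp (Ne.symm hi) (Ne.symm hj) hij) with h | h
    · right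
      rw [det3_swap]
      linarith
    · left; exact h
  let r : Fin n → ℕ := fun i => if i = v then 0 else (S i).card + 1
  have hr : ∀ i, r i < n := by
    intro i
    by_cases hi : i = v
    · simp only [r, if_pos hi]; exact hn
    · simp only [r, if_neg hi]
      have hsub : S i ⊆ (Finset.univ.erase v).erase i := by
        intro k hk
        simp only [S, Finset.mem_filter, Finset.mem_univ, true_and] at hk
        simp only [Finset.mem_erase, Finset.mem_univ, and_true]
        refine ⟨?_, hk.1⟩
        rintro rfl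
        rw [det3_right] at hk
        exact lt_irrefl _ hk.2
      have hc := Finset.card_le_card hsub
      rw [Finset.card_erase_of_mem (by simp [hi]), Finset.card_erase_of_mem (Finset.mem_univ _),
        Finset.card_univ, Fintype.card_fin] at hc
      have hi0 : (i : ℕ) ≠ 0 := fun h => hi (Fin.ext h)
      have := i.2
      omega
  let R : Fin n → Fin n := fun i => ⟨r i, hr i⟩
  have hinj : Function.Injective R := by
    intro i j h
    have h' : r i = r j := Fin.mk.inj_iff.1 h
    by_contra hij
    by_cases hi : i = v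
    · have hj : j ≠ v := fun h => hij (hi.trans h.symm)
      simp only [r, if_pos hi, if_neg hj] at h'
      omega
    · by_cases hj : j = v
      · simp only [r, if_neg hi, if_pos hj] at h'
        omega
      · simp only [r, if_neg hi, if_neg hj] at h'
        rcases htot hi hj hij with h | h
        · have := hSmono hi hj h
          omega
        · have := hSmono hj hi h
          omega
  let σ : Fin n ≃ Fin n := Equiv.ofBijective R (Finite.injective_iff_bijective.1 hinj)
  refine ⟨σ.symm, ?_⟩
  have hlt : ∀ {i j : Fin n}, R i < R j → j ≠ v ∧ (i ≠ v → 0 < det3 (p v) (p i) (p j)) := by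
    intro i j h
    have h' : r i < r j := h
    have hj : j ≠ v := by
      intro hj
      simp only [r, if_pos hj] at h'
      omega
    refine ⟨hj, fun hi => ?_⟩
    have hij : i ≠ j := by
      rintro rfl
      exact lt_irrefl _ h'
    rcases htot hi hj hij with h2 | h2
    · exact h2
    · have := hSmono hj hi h2
      simp only [r, if_neg hi, if_neg hj] at h'
      omega
  have main : ∀ i j k : Fin n, R i < R j → R j < R k → 0 < det3 (p i) (p j) (p k) := by
    intro i j k hij hjk
    obtain ⟨hj, h1⟩ := hlt hij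
    obtain ⟨hk, h2⟩ := hlt hjk
    have h3 := h2 hj
    by_cases hi : i = v
    · rw [hi]; exact h3
    · have h4 := h1 hi
      have h5 := (hlt (hij.trans hjk)).2 hi
      have hji : j ≠ i := by rintro rfl; exact lt_irrefl _ hij
      have hjk' : j ≠ k := by rintro rfl; exact lt_irrefl _ hjk
      have := beyond hp hj hji hjk' h5 h4 h3
      rw [det3_swap]
      linarith
  intro a b c hab hbc
  have e : ∀ x : Fin n, R (σ.symm x) = x := fun x => σ.apply_symm_apply x
  exact main _ _ _ (by rw [e, e]; exact hab) (by rw [e, e]; exact hbc)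

section shift

variable {n : ℕ}

/-- The vertices listed cyclically from `v` on. -/
noncomputable def sh (hn : 0 < n) (p : Fin n → ℝ × ℝ) (v i : ℕ) : ℝ × ℝ :=
  p ⟨(v + i) % n, Nat.mod_lt _ hn⟩

theorem sh_surj (hn : 0 < n) (p : Fin n → ℝ × ℝ) {v : ℕ} (hv : v < n) (j : Fin n) :
    ∃ i < n, (⟨(v + i) % n, Nat.mod_lt _ hn⟩ : Fin n) = j := by
  have hj := j.2
  rcases Nat.lt_or_ge (j : ℕ) v with h | h
  · refine ⟨j + n - v, by omega, ?_⟩
    ext
    simp only
    rw [show v + (j + n - v) = j + n by omega, Nat.add_mod_right, Nat.mod_eq_of_lt hj]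
  · refine ⟨j - v, by omega, ?_⟩
    ext
    simp only
    rw [show v + (j - v) = j by omega, Nat.mod_eq_of_lt hj]

theorem mod_eq' {v i : ℕ} (hv : v < n) (hi : i < n) :
    (v + i) % n = if v + i < n then v + i else v + i - n := by
  split_ifs with h
  · exact Nat.mod_eq_of_lt h
  · rw [Nat.mod_eq_sub_mod (by omega), Nat.mod_eq_of_lt (by omega)]

theorem sh_ccw (hn : 0 < n) {p : Fin n → ℝ × ℝ} (hp : Ccw p) {v : ℕ} (hv : v < n) {i j k : ℕ}
    (hij : i < j) (hjk : j < k) (hk : k < n) :
    0 < det3 (sh hn p v i) (sh hn p v j) (sh hn p v k) := by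
  have ei := mod_eq' (n := n) hv (by omega : i < n)
  have ej := mod_eq' (n := n) hv (by omega : j < n)
  have ek := mod_eq' (n := n) hv hk
  unfold sh
  split_ifs at ei ej ek <;> try omega
  · exact hp _ _ _ (by rw [Fin.lt_def]; simp only; omega) (by rw [Fin.lt_def]; simp only; omega)
  · rw [← det3_cyc]
    exact hp _ _ _ (by rw [Fin.lt_def]; simp only; omega) (by rw [Fin.lt_def]; simp only; omega)
  · rw [det3_cyc]
    exact hp _ _ _ (by rw [Fin.lt_def]; simp only; omega) (by rw [Fin.lt_def]; simp only; omega)
  · exact hp _ _ _ (by rw [Fin.lt_def]; simp only; omega) (by rw [Fin.lt_def]; simp only; omega)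

end shift

end Pool.Agent.Helper30.TriFace
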