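import Pool.Agent.Helper30.Tri6

namespace Pool.Agent.Helper30.TriFace

open Set

theorem affInd_of_det {a b c : ℝ × ℝ} (h : det3 a b c ≠ 0) : AffineIndependent ℝ ![a, b, c] := by
  rw [affineIndependent_iff_not_collinear_set]
  intro hcol
  rw [collinear_iff_of_mem (p₀ := a) (by simp)] at hcol
  obtain ⟨v, hv⟩ := hcol
  obtain ⟨r, hr⟩ := hv b (by simp)
  obtain ⟨s, hs⟩ := hv c (by simp)
  apply h
  rw [hr, hs]
  unfold det3
  simp only [vadd_eq_add, Prod.fst_add, Prod.smul_fst, Prod.snd_add, Prod.smul_snd, smul_eq_mul]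
  ring

theorem det3_comb3 (p q x y z : ℝ × ℝ) {a b c : ℝ} (h : a + b + c = 1) :
    det3 p q (a • x + b • y + c • z) = a * det3 p q x + b * det3 p q y + c * det3 p q z := by
  unfold det3
  simp only [Prod.fst_add, Prod.smul_fst, Prod.snd_add, Prod.smul_snd, smul_eq_mul]
  have hc : c = 1 - a - b := by linarith
  subst hc
  ring

theorem range_vec (a b c : ℝ × ℝ) : range ![a, b, c] = {a, b, c} := by
  ext x
  simp
  tauto

/-- The interior of a triangle in terms of its three sides. -/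
theorem interior_triangle {a b c p0 q0 p1 q1 p2 q2 : ℝ × ℝ} (hd : det3 a b c ≠ 0)
    (h0b : det3 p0 q0 b = 0) (h0c : det3 p0 q0 c = 0) (h0a : 0 < det3 p0 q0 a)
    (h1a : det3 p1 q1 a = 0) (h1c : det3 p1 q1 c = 0) (h1b : det3 p1 q1 b < 0)
    (h2a : det3 p2 q2 a = 0) (h2b : det3 p2 q2 b = 0) (h2c : 0 < det3 p2 q2 c) :
    interior (convexHull ℝ {a, b, c}) =
      {x | 0 < det3 p0 q0 x ∧ det3 p1 q1 x < 0 ∧ 0 < det3 p2 q2 x} := by
  have hind := affInd_of_det hd
  have htop : affineSpan ℝ (range ![a, b, c]) = ⊤ := by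
    rw [hind.affineSpan_eq_top_iff_card_eq_finrank_add_one]
    simp
  let B : AffineBasis (Fin 3) ℝ (ℝ × ℝ) := ⟨![a, b, c], hind, htop⟩
  have hB : (B : Fin 3 → ℝ × ℝ) = ![a, b, c] := rfl
  rw [← range_vec, ← hB, B.interior_convexHull]
  ext x
  simp only [mem_ofPred_eq]
  have hs : B.coord 0 x + B.coord 1 x + B.coord 2 x = 1 := by
    have := B.sum_coord_apply_eq_one x
    rwa [Fin.sum_univ_three] at this
  have hx : x = B.coord 0 x • a + B.coord 1 x • b + B.coord 2 x • c := by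
    have := B.linear_combination_coord_eq_self x
    rw [Fin.sum_univ_three, hB] at this
    simpa using this.symm
  have e0 : det3 p0 q0 x = B.coord 0 x * det3 p0 q0 a := by
    conv_lhs => rw [hx]
    rw [det3_comb3 _ _ _ _ _ hs, h0b, h0c]; ring
  have e1 : det3 p1 q1 x = B.coord 1 x * det3 p1 q1 b := by
    conv_lhs => rw [hx]
    rw [det3_comb3 _ _ _ _ _ hs, h1a, h1c]; ring
  have e2 : det3 p2 q2 x = B.coord 2 x * det3 p2 q2 c := by
    conv_lhs => rw [hx]
    rw [det3_comb3 _ _ _ _ _ hs, h2a, h2b]; ring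
  rw [e0, e1, e2]
  constructor
  · intro h
    exact ⟨mul_pos (h 0) h0a, mul_neg_of_pos_of_neg (h 1) h1b, mul_pos (h 2) h2c⟩
  · rintro ⟨k0, k1, k2⟩ i
    fin_cases i
    · exact pos_of_mul_pos_left k0 h0a.le
    · by_contra hc
      push Not at hc
      have : (0 : ℝ) ≤ B.coord 1 x * det3 p1 q1 b := mul_nonneg_of_nonpos_of_nonpos hc h1b.le
      linarith
    · exact pos_of_mul_pos_left k2 h2c.le

section local_analysis

variable {n : ℕ} {w : ℕ → ℝ × ℝ}

theorem ear_point (C : ∀ i j k, i < j → j < k → k < n → 0 < det3 (w i) (w j) (w k)) (hn : 3 ≤ n)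
    {m : ℕ} (hm : 1 ≤ m) (hmn : m < n) :
    ∃ l : ℝ, 0 < l ∧ l ≤ 1 ∧ det3 (w 1) (w (n - 1)) ((1 - l) • w 0 + l • w m) = 0 := by
  have hα : 0 < det3 (w 1) (w (n - 1)) (w 0) := by
    rw [← det3_cyc]
    exact C 0 1 (n - 1) (by omega) (by omega) (by omega)
  have hβ : det3 (w 1) (w (n - 1)) (w m) ≤ 0 := by
    rcases eq_or_lt_of_le hm with h | h
    · rw [← h, det3_left]
    · rcases Nat.lt_or_ge m (n - 1) with h' | h'
      · rw [det3_swap]
        have := C 1 m (n - 1) h h' (by omega)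
        linarith
      · have : m = n - 1 := by omega
        rw [this, det3_right]
  set α := det3 (w 1) (w (n - 1)) (w 0)
  set β := det3 (w 1) (w (n - 1)) (w m)
  have hpos : 0 < α - β := by linarith
  refine ⟨α / (α - β), by positivity, ?_, ?_⟩
  · rw [div_le_one hpos]; linarith
  · rw [det3_comb _ _ _ _ (by ring)]
    change (1 - α / (α - β)) * α + α / (α - β) * β = 0
    field_simp
    ring

/-- The region at `w 0` between the rays to `w k` and `w (k+1)`. -/
def Tr (n : ℕ) (w : ℕ → ℝ × ℝ) (k : ℕ) : Set (ℝ × ℝ) :=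
  {x | 0 < det3 (w 1) (w (n - 1)) x ∧ det3 (w 0) (w (k + 1)) x < 0 ∧ 0 < det3 (w 0) (w k) x}

theorem Tr_triangle (C : ∀ i j k, i < j → j < k → k < n → 0 < det3 (w i) (w j) (w k))
    (hn : 3 ≤ n) {k : ℕ} (hk : 1 ≤ k) (hkn : k + 1 < n) :
    ∃ b c : ℝ × ℝ, b ∈ segment ℝ (w 0) (w k) ∧ c ∈ segment ℝ (w 0) (w (k + 1)) ∧
      det3 (w 0) b c ≠ 0 ∧ interior (convexHull ℝ {w 0, b, c}) = Tr n w k := by
  obtain ⟨l, hl, hl1, hb⟩ := ear_point C hn hk (by omega)
  obtain ⟨m, hm, hm1, hc⟩ := ear_point C hn (by omega : 1 ≤ k + 1) hkn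
  have hpos := C 0 k (k + 1) (by omega) (by omega) hkn
  have e1 : det3 (w 0) (w (k + 1)) ((1 - l) • w 0 + l • w k) = - (l * det3 (w 0) (w k) (w (k + 1))) := by
    rw [det3_comb _ _ _ _ (by ring), det3_left, det3_swap (w 0) (w (k + 1)) (w k)]
    ring
  have e2 : det3 (w 0) (w k) ((1 - m) • w 0 + m • w (k + 1)) = m * det3 (w 0) (w k) (w (k + 1)) := by
    rw [det3_comb _ _ _ _ (by ring), det3_left]
    ring
  have hd : det3 (w 0) ((1 - l) • w 0 + l • w k) ((1 - m) • w 0 + m • w (k + 1)) =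
      l * m * det3 (w 0) (w k) (w (k + 1)) := by
    unfold det3
    simp only [Prod.fst_add, Prod.smul_fst, Prod.snd_add, Prod.smul_snd, smul_eq_mul]
    ring
  have hd' : det3 (w 0) ((1 - l) • w 0 + l • w k) ((1 - m) • w 0 + m • w (k + 1)) ≠ 0 := by
    rw [hd]; positivity
  refine ⟨(1 - l) • w 0 + l • w k, (1 - m) • w 0 + m • w (k + 1),
    ⟨1 - l, l, by linarith, hl.le, by ring, rfl⟩, ⟨1 - m, m, by linarith, hm.le, by ring, rfl⟩, hd',
    ?_⟩
  refine interior_triangle hd' hb hc ?_ (det3_left _ _) ?_ ?_ (det3_left _ _) ?_ ?_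
  · rw [← det3_cyc]
    exact C 0 1 (n - 1) (by omega) (by omega) (by omega)
  · rw [det3_comb _ _ _ _ (by ring), det3_left, det3_right]; ring
  · rw [e1]
    have : 0 < l * det3 (w 0) (w k) (w (k + 1)) := by positivity
    linarith
  · rw [det3_comb _ _ _ _ (by ring), det3_left, det3_right]; ring
  · rw [e2]; positivity

/-- Monotonicity of the wedges at `w 0`. -/
theorem Tr_disj (C : ∀ i j k, i < j → j < k → k < n → 0 < det3 (w i) (w j) (w k))
    {k k' : ℕ} (hk : 1 ≤ k) (hkk : k < k') (hkn : k' + 1 < n) {x : ℝ × ℝ} (hx : x ∈ Tr n w k) :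
    x ∉ Tr n w k' := by
  rintro ⟨-, -, h3⟩
  obtain ⟨-, h1, h2⟩ := hx
  rcases Nat.lt_or_ge (k + 1) k' with h | h
  · have c1 := C 0 k (k + 1) (by omega) (by omega) (by omega)
    have c2 := C 0 k k' (by omega) (by omega) (by omega)
    have c3 := C 0 (k + 1) k' (by omega) h (by omega)
    have key : det3 (w 0) (w k) (w (k + 1)) * det3 (w 0) (w k') x =
        det3 (w 0) (w k) (w k') * det3 (w 0) (w (k + 1)) x -
        det3 (w 0) (w k) x * det3 (w 0) (w (k + 1)) (w k') := by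
      unfold det3; ring
    have l1 := mul_pos c1 h3
    have l2 := mul_neg_of_pos_of_neg c2 h1
    have l3 := mul_pos h2 c3
    linarith
  · have : k' = k + 1 := by omega
    subst this
    linarith

theorem Tr_closure {k : ℕ} {x : ℝ × ℝ} (hx : x ∈ closure (Tr n w k)) :
    0 ≤ det3 (w 1) (w (n - 1)) x ∧ det3 (w 0) (w (k + 1)) x ≤ 0 ∧ 0 ≤ det3 (w 0) (w k) x := by
  have hcl : IsClosed {x : ℝ × ℝ | 0 ≤ det3 (w 1) (w (n - 1)) x ∧ det3 (w 0) (w (k + 1)) x ≤ 0 ∧
      0 ≤ det3 (w 0) (w k) x} :=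
    (isClosed_le continuous_const (det3_continuous _ _)).inter
      ((isClosed_le (det3_continuous _ _) continuous_const).inter
        (isClosed_le continuous_const (det3_continuous _ _)))
  have hsub : Tr n w k ⊆ {x : ℝ × ℝ | 0 ≤ det3 (w 1) (w (n - 1)) x ∧
      det3 (w 0) (w (k + 1)) x ≤ 0 ∧ 0 ≤ det3 (w 0) (w k) x} :=
    fun y hy => ⟨hy.1.le, hy.2.1.le, hy.2.2.le⟩
  exact closure_minimal hsub hcl hx

/-- Which vertices lie on the closure of the region. -/
theorem Tr_vertex (C : ∀ i j k, i < j → j < k → k < n → 0 < det3 (w i) (w j) (w k))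
    {k : ℕ} (hk : 1 ≤ k) (hkn : k + 2 < n) {j : ℕ} (hj : 1 ≤ j) (hjn : j < n)
    (hx : w j ∈ closure (Tr n w k)) : j = 1 := by
  obtain ⟨h1, h2, h3⟩ := Tr_closure hx
  by_contra hj1
  rcases Nat.lt_or_ge j (n - 1) with h | h
  · have := C 1 j (n - 1) (by omega) h (by omega)
    rw [det3_swap] at h1
    linarith
  · have hj' : j = n - 1 := by omega
    subst hj'
    have := C 0 (k + 1) (n - 1) (by omega) (by omega) (by omega)
    linarith

end local_analysis

end Pool.Agent.Helper30.TriFace
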